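import Mathlib

/-!
# Definitions: homogeneous sets, towers, traces, patterns, shattered grids

A colouring of the `r`-subsets of `{0, …, N - 1}` is a function `c : Finset ℕ → κ`, of which only the
values at the `r`-subsets of `range N` are used.
-/

set_option autoImplicit false

namespace Pool.Agent.H30.VK

open Finset

variable {κ : Type}

/-- All `r`-subsets of `S` have the same colour. -/
def Homogeneous (r : ℕ) (c : Finset ℕ → κ) (S : Finset ℕ) : Prop :=
  ∀ A ⊆ S, ∀ B ⊆ S, A.card = r → B.card = r → c A = c B

/-- The iterated exponential `2 ^ (2 ^ (… ^ x))` with `k` twos. -/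
noncomputable def tow : ℕ → ℝ → ℝ
  | 0, x => x
  | k + 1, x => 2 ^ tow k x

open Classical in
/-- The trace of the set `B` on the set `W`: the colours of all the `r`-sets `X ∪ B` with `X ⊆ W`
disjoint from `B`. -/
noncomputable def trace (c : Finset ℕ → κ) (r : ℕ) (W B : Finset ℕ) : Finset ℕ → Option κ :=
  fun X => if X ⊆ W ∧ Disjoint X B ∧ X.card + B.card = r then some (c (X ∪ B)) else none

/-- The number of different traces on `W` of the sets of `l` vertices. -/
noncomputable def numTraces (c : Finset ℕ → κ) (r N l : ℕ) (W : Finset ℕ) : ℕ :=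
  Set.ncard (trace c r W '' {B | B ⊆ range N ∧ B.card = l})

/-- The ordered pattern of the vertices `x 0 < x 1 < … < x (k - 1)`: the colours of all the
`r`-subsets. -/
def pattern (c : Finset ℕ → κ) (r : ℕ) {k : ℕ} (x : Fin k → ℕ) : Finset (Fin k) → Option κ :=
  fun T => if T.card = r then some (c (T.image x)) else none

/-- The number of different ordered patterns on `k` vertices. -/
noncomputable def numPatterns (c : Finset ℕ → κ) (r N k : ℕ) : ℕ :=
  Set.ncard ((fun x : Fin k → ℕ => pattern c r x) '' {x | StrictMono x ∧ ∀ i, x i < N})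

/-- The colour class `a` shatters a `k`-dimensional grid of side `d`. The `i`-th side of the grid
consists of `d` sets `x i 0, …, x i (d - 1)` of `g i` vertices each; sets belonging to different
sides are disjoint. The points of the grid are the unions `x 0 (f 0) ∪ … ∪ x (k - 1) (f (k - 1))`, and
for every set `P` of points there is a set `B` of vertices, disjoint from the grid, such that the
`r`-sets `B ∪ x 0 (f 0) ∪ …` have colour `a` exactly for the points `f` in `P`. For `g = 1` the
points are transversals of `k` disjoint sets of `d` vertices, and for `k = 1` and `g = 1` this is the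
usual notion of a set of `d` vertices shattered by the neighbourhoods of the `(r - 1)`-sets. -/
def GridShattered (c : Finset ℕ → κ) (a : κ) (r N : ℕ) {k : ℕ} (g : Fin k → ℕ) (d : ℕ) : Prop :=
  ∃ x : Fin k → Fin d → Finset ℕ,
    (∀ i j, x i j ⊆ range N ∧ (x i j).card = g i) ∧
    (∀ i i' j j', i ≠ i' → Disjoint (x i j) (x i' j')) ∧
    ∀ P : Set (Fin k → Fin d), ∃ B ⊆ range N, (∀ i j, Disjoint (x i j) B) ∧
      B.card + ∑ i, g i = r ∧
      ∀ f : Fin k → Fin d, (c (B ∪ univ.biUnion (fun i => x i (f i))) = a ↔ f ∈ P)

/-- The `VC_k`-dimension of every colour class is at most `d`, for every way of distributing the `r`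
vertices into `k + 1` groups: all the `k`-dimensional grids shattered by a colour class have sides
of length at most `d`. -/
def VCkLE (c : Finset ℕ → κ) (r N k d : ℕ) : Prop :=
  ∀ (a : κ) (g : Fin k → ℕ) (d' : ℕ), (∀ i, 1 ≤ g i) → GridShattered c a r N g d' → d' ≤ d

/-- Towers of twos, for natural numbers. -/
def tw : ℕ → ℕ → ℕ
  | 0, x => x
  | k + 1, x => 2 ^ tw k x

/-- There are two-colourings of the `r`-subsets of `{0, …, N - 1}`, `N ≥ T_(r-1) (ε n)`, with the
property `P` and without homogeneous set of size `n`, for some `ε > 0` and all large `n`. -/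
def TowerGrowth (r : ℕ) (P : (N : ℕ) → (Finset ℕ → Bool) → Prop) : Prop :=
  ∃ ε : ℝ, 0 < ε ∧ ∃ n₀ : ℕ, ∀ n : ℕ, n₀ ≤ n → ∃ (N : ℕ) (c : Finset ℕ → Bool),
    tow (r - 1) (ε * n) ≤ N ∧ (∀ S ⊆ range N, S.card = n → ¬ Homogeneous r c S) ∧ P N c

end Pool.Agent.H30.VK
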