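import Pool.Agent.H30.VK.Types
import Pool.Agent.H30.VK.Defs

/-!
# From codes to numbers of traces and to shattered grids
-/

set_option autoImplicit false

namespace Pool.Agent.H30.VK

open Finset Pool.Agent.Y424.LK

variable {κ : Type}

theorem trace_eq_of_sameType {c : Finset ℕ → κ} {r : ℕ} {W : Finset ℕ} {l : ℕ} {B B' : Finset ℕ}
    (hB : B.card = l) (hB' : B'.card = l) (h : SameType c r W (srt l B) (srt l B')) :
    trace c r W B = trace c r W B' := by
  classical
  have hb := srt_mono hB
  have hb' := srt_mono hB'
  have himB := srt_image hB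
  have himB' := srt_image hB'
  set b := srt l B with hbdef
  set b' := srt l B' with hb'def
  have hmemB : ∀ i, b i ∈ B := fun i => by rw [← himB]; exact mem_image_of_mem _ (mem_univ _)
  have hmemB' : ∀ i, b' i ∈ B' := fun i => by rw [← himB']; exact mem_image_of_mem _ (mem_univ _)
  have heq : ∀ w ∈ W, ∀ i, w = b i ↔ w = b' i := by
    intro w hw i
    have h1 := h.1 (Sum.inl ⟨w, hw⟩) (Sum.inr i)
    have h2 := h.1 (Sum.inr i) (Sum.inl ⟨w, hw⟩)
    have h3 : (w < b i ↔ w < b' i) := h1
    have h4 : (b i < w ↔ b' i < w) := h2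
    omega
  have hmem : ∀ w ∈ W, w ∈ B ↔ w ∈ B' := by
    intro w hw
    rw [← himB, ← himB']
    simp only [mem_image, mem_univ, true_and]
    constructor
    · rintro ⟨i, hi⟩
      exact ⟨i, ((heq w hw i).1 hi.symm).symm⟩
    · rintro ⟨i, hi⟩
      exact ⟨i, ((heq w hw i).2 hi.symm).symm⟩
  funext X
  unfold trace
  by_cases hX : X ⊆ W
  · have hdis : Disjoint X B ↔ Disjoint X B' := by
      rw [disjoint_left, disjoint_left]
      constructor
      · intro h1 x hx hxB
        exact h1 hx ((hmem x (hX hx)).2 hxB)
      · intro h1 x hx hxB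
        exact h1 hx ((hmem x (hX hx)).1 hxB)
    by_cases hd : Disjoint X B
    · have hd' := hdis.1 hd
      rw [hB, hB']
      by_cases hc : X.card + l = r
      · rw [if_pos ⟨hX, hd, hc⟩, if_pos ⟨hX, hd', hc⟩]
        congr 1
        have hAc : (X ∪ B).card = r := by rw [card_union_of_disjoint hd, hB, hc]
        have hy := srt_mono hAc
        have hyA := srt_image hAc
        set y := srt r (X ∪ B) with hydef
        have hidx : ∀ i, ∃ u : {w // w ∈ W} ⊕ Fin l, ev W b u = y i ∧
            (∀ hx : y i ∈ X, u = Sum.inl ⟨y i, hX hx⟩) ∧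
            (y i ∉ X → ∃ j, u = Sum.inr j ∧ b j = y i) := by
          intro i
          by_cases hx : y i ∈ X
          · exact ⟨Sum.inl ⟨y i, hX hx⟩, rfl, fun _ => rfl, fun h => absurd hx h⟩
          · have h1 : y i ∈ X ∪ B := by rw [← hyA]; exact mem_image_of_mem _ (mem_univ _)
            have h2 : y i ∈ B := by
              rcases mem_union.1 h1 with h | h
              · exact absurd h hx
              · exact h
            rw [← himB] at h2
            obtain ⟨j, -, hj⟩ := mem_image.1 h2
            exact ⟨Sum.inr j, hj, fun h => absurd h hx, fun _ => ⟨j, rfl, hj⟩⟩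
        choose u hu1 hu2 hu3 using hidx
        have hmono : StrictMono (fun i => ev W b (u i)) := by
          intro i j hij
          show ev W b (u i) < ev W b (u j)
          rw [hu1, hu1]
          exact hy hij
        have h5 := h.2 u hmono
        have e1 : univ.image (fun i => ev W b (u i)) = X ∪ B := by
          rw [← hyA]
          congr 1
          funext i
          exact hu1 i
        have e2 : univ.image (fun i => ev W b' (u i)) = X ∪ B' := by
          ext w
          simp only [mem_image, mem_univ, true_and, mem_union]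
          constructor
          · rintro ⟨i, rfl⟩
            by_cases hx : y i ∈ X
            · left
              rw [hu2 i hx]
              exact hx
            · right
              obtain ⟨j, hj, -⟩ := hu3 i hx
              rw [hj]
              exact hmemB' j
          · rintro (hw | hw)
            · have h6 : w ∈ univ.image y := by rw [hyA]; exact mem_union_left _ hw
              obtain ⟨i, -, hi⟩ := mem_image.1 h6
              refine ⟨i, ?_⟩
              have hx : y i ∈ X := by rw [hi]; exact hw
              rw [hu2 i hx]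
              exact hi
            · rw [← himB'] at hw
              obtain ⟨j, -, hj⟩ := mem_image.1 hw
              have h6 : b j ∈ univ.image y := by rw [hyA]; exact mem_union_right _ (hmemB j)
              obtain ⟨i, -, hi⟩ := mem_image.1 h6
              have hx : y i ∉ X := by
                rw [hi]
                intro h7
                exact (disjoint_left.1 hd h7) (hmemB j)
              obtain ⟨j', hj', hj''⟩ := hu3 i hx
              have h8 : j' = j := hb.injective (by rw [hj'', hi])
              refine ⟨i, ?_⟩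
              rw [hj', h8]
              exact hj
        rw [← e1, ← e2]
        exact h5
      · rw [if_neg (fun h => hc h.2.2), if_neg (fun h => hc h.2.2)]
    · have hd' := fun h => hd (hdis.2 h)
      rw [if_neg (fun h => hd h.2.1), if_neg (fun h => hd' h.2.1)]
  · rw [if_neg (fun h => hX h.1), if_neg (fun h => hX h.1)]

theorem numTraces_le {c : Finset ℕ → κ} {r N l : ℕ} {β : ℕ → ℕ} (h : TC c r N (Fin l) β)
    {W : Finset ℕ} (hW : W ⊆ range N) : numTraces c r N l W ≤ β W.card := by
  classical
  obtain ⟨α, hα, code, hcard, hcode⟩ := h W hW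
  refine le_trans ?_ hcard
  unfold numTraces
  set F : α → (Finset ℕ → Option κ) := fun a =>
    if h : ∃ B, (B ⊆ range N ∧ B.card = l) ∧ code (srt l B) = a then trace c r W h.choose
    else fun _ => none with hF
  have hsub : trace c r W '' {B | B ⊆ range N ∧ B.card = l} ⊆ F '' Set.univ := by
    rintro _ ⟨B, hB, rfl⟩
    refine ⟨code (srt l B), Set.mem_univ _, ?_⟩
    have hex : ∃ B', (B' ⊆ range N ∧ B'.card = l) ∧ code (srt l B') = code (srt l B) :=
      ⟨B, hB, rfl⟩
    have h1 : F (code (srt l B)) = trace c r W hex.choose := dif_pos hex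
    rw [h1]
    obtain ⟨⟨g1, g2⟩, g3⟩ := hex.choose_spec
    have hbd : ∀ A : Finset ℕ, A ⊆ range N → A.card = l → ∀ i, srt l A i < N := by
      intro A hA hc i
      have h2 : srt l A i ∈ univ.image (srt l A) := mem_image_of_mem _ (mem_univ _)
      rw [srt_image hc] at h2
      exact mem_range.1 (hA h2)
    exact trace_eq_of_sameType g2 hB.2 (hcode _ _ (hbd _ g1 g2) (hbd _ hB.1 hB.2) g3)
  calc Set.ncard (trace c r W '' {B | B ⊆ range N ∧ B.card = l})
      ≤ Set.ncard (F '' Set.univ) := Set.ncard_le_ncard hsub (Set.toFinite _)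
    _ ≤ Set.ncard (Set.univ : Set α) := Set.ncard_image_le (Set.toFinite _)
    _ = Fintype.card α := by rw [Set.ncard_univ, Nat.card_eq_fintype_card]

theorem traces_finite (c : Finset ℕ → κ) (r N l : ℕ) (W : Finset ℕ) :
    (trace c r W '' {B | B ⊆ range N ∧ B.card = l}).Finite := by
  apply Set.Finite.image
  apply Set.Finite.subset ((range N).powerset : Finset (Finset ℕ)).finite_toSet
  intro B hB
  rw [mem_coe, mem_powerset]
  exact hB.1

/-- Shattered grids give many traces. -/
theorem grid_traces {c : Finset ℕ → κ} {a : κ} {r N k d : ℕ} {g : Fin k → ℕ}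
    (hg : ∀ i, 1 ≤ g i) (h : GridShattered c a r N g d) :
    k ≤ r ∧ ∃ l, ∃ W ⊆ range N, W.card ≤ r * d ∧ 2 ^ d ^ k ≤ numTraces c r N l W := by
  classical
  obtain ⟨x, hx, hdis, hP⟩ := h
  have hsum : k ≤ ∑ i, g i := by
    calc k = ∑ _i : Fin k, 1 := by simp
      _ ≤ ∑ i : Fin k, g i := sum_le_sum (fun i _ => hg i)
  have hr : ∑ i, g i ≤ r := by
    obtain ⟨B, -, -, h1, -⟩ := hP ∅
    omega
  refine ⟨hsum.trans hr, r - ∑ i, g i,
    (univ : Finset (Fin k)).biUnion (fun i => univ.biUnion (fun j => x i j)), ?_, ?_, ?_⟩
  · intro w hw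
    simp only [mem_biUnion, mem_univ, true_and] at hw
    obtain ⟨i, j, hw⟩ := hw
    exact (hx i j).1 hw
  · calc ((univ : Finset (Fin k)).biUnion (fun i => univ.biUnion (fun j => x i j))).card
        ≤ ∑ i : Fin k, (univ.biUnion (fun j => x i j)).card := card_biUnion_le
      _ ≤ ∑ i : Fin k, ∑ j : Fin d, (x i j).card := sum_le_sum (fun i _ => card_biUnion_le)
      _ = ∑ i : Fin k, d * g i := by
          apply sum_congr rfl
          intro i _
          rw [sum_congr rfl (fun j _ => (hx i j).2), sum_const, card_univ, Fintype.card_fin,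
            smul_eq_mul]
      _ = (∑ i, g i) * d := by rw [← mul_sum, mul_comm]
      _ ≤ r * d := Nat.mul_le_mul_right _ hr
  · set W := (univ : Finset (Fin k)).biUnion (fun i => univ.biUnion (fun j => x i j)) with hW
    choose B hBN hBd hBc hBP using hP
    have hinj : Function.Injective (fun P : Set (Fin k → Fin d) => trace c r W (B P)) := by
      intro P P' hPP
      ext f
      have h1 := congrFun hPP ((univ : Finset (Fin k)).biUnion (fun i => x i (f i)))
      have hsub : (univ : Finset (Fin k)).biUnion (fun i => x i (f i)) ⊆ W := by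
        intro w hw
        simp only [hW, mem_biUnion, mem_univ, true_and] at hw ⊢
        obtain ⟨i, hw⟩ := hw
        exact ⟨i, f i, hw⟩
      have hcard : ((univ : Finset (Fin k)).biUnion (fun i => x i (f i))).card = ∑ i, g i := by
        rw [card_biUnion]
        · exact sum_congr rfl (fun i _ => (hx i (f i)).2)
        · intro i _ i' _ hne
          exact hdis i i' _ _ hne
      have hd : ∀ Q, Disjoint ((univ : Finset (Fin k)).biUnion (fun i => x i (f i))) (B Q) := by
        intro Q
        rw [disjoint_biUnion_left]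
        intro i _
        exact hBd Q i (f i)
      have hcc : ∀ Q, ((univ : Finset (Fin k)).biUnion (fun i => x i (f i))).card +
          (B Q).card = r := by
        intro Q
        rw [hcard, add_comm]
        exact hBc Q
      simp only [trace] at h1
      rw [if_pos ⟨hsub, hd P, hcc P⟩, if_pos ⟨hsub, hd P', hcc P'⟩, Option.some_inj] at h1
      rw [union_comm, union_comm _ (B P')] at h1
      rw [← hBP P f, ← hBP P' f, h1]
    have hcardP : Nat.card (Set (Fin k → Fin d)) = 2 ^ d ^ k := by
      rw [Nat.card_eq_fintype_card, Fintype.card_set, Fintype.card_fun, Fintype.card_fin,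
        Fintype.card_fin]
    unfold numTraces
    rw [← hcardP, ← Set.ncard_univ, ← Set.ncard_image_of_injective _ hinj]
    apply Set.ncard_le_ncard _ (traces_finite c r N _ W)
    rintro _ ⟨P, -, rfl⟩
    refine ⟨B P, ⟨hBN P, ?_⟩, rfl⟩
    have := hBc P
    omega

/-- Few traces: only small grids are shattered. -/
theorem vck_of_traces {c : Finset ℕ → κ} {r N e C : ℕ}
    (h : ∀ l ≤ r, ∀ W ⊆ range N, numTraces c r N l W ≤ 2 ^ (C * (W.card + 1) ^ e)) (k : ℕ)
    (hk : e < k) : VCkLE c r N k (C * (r + 1) ^ e) := by
  intro a g d hg hd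
  obtain ⟨hkr, l, W, hW, hWc, h1⟩ := grid_traces hg hd
  rcases Nat.eq_zero_or_pos d with hd0 | hd0
  · rw [hd0]
    exact Nat.zero_le _
  have hlr : l ≤ r ∨ r < l := le_or_gt l r
  rcases hlr with hl | hl
  · have h2 := h1.trans (h l hl W hW)
    have h3 : d ^ k ≤ C * (W.card + 1) ^ e := (Nat.pow_le_pow_iff_right (by norm_num)).1 h2
    have h4 : W.card + 1 ≤ (r + 1) * d := by
      calc W.card + 1 ≤ r * d + 1 := by omega
        _ ≤ r * d + d := by omega
        _ = (r + 1) * d := by ring
    have h5 : d ^ e * d ≤ d ^ e * (C * (r + 1) ^ e) := by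
      calc d ^ e * d = d ^ (e + 1) := (pow_succ d e).symm
        _ ≤ d ^ k := Nat.pow_le_pow_right hd0 hk
        _ ≤ C * (W.card + 1) ^ e := h3
        _ ≤ C * ((r + 1) * d) ^ e := Nat.mul_le_mul_left _ (Nat.pow_le_pow_left h4 e)
        _ = d ^ e * (C * (r + 1) ^ e) := by rw [mul_pow]; ring
    exact Nat.le_of_mul_le_mul_left h5 (by positivity)
  · exfalso
    -- no sets `B` of more than `r` elements have a nontrivial trace
    have h6 : numTraces c r N l W ≤ 1 := by
      unfold numTraces
      rw [Set.ncard_le_one_iff (traces_finite c r N l W)]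
      rintro _ _ ⟨B, hB, rfl⟩ ⟨B', hB', rfl⟩
      funext X
      unfold trace
      rw [if_neg, if_neg]
      · rintro ⟨-, -, h7⟩
        have := hB'.2
        omega
      · rintro ⟨-, -, h7⟩
        have := hB.2
        omega
    have h7 : 2 ^ 1 ≤ 2 ^ d ^ k := Nat.pow_le_pow_right (by norm_num)
      (Nat.one_le_pow _ _ hd0)
    omega

end Pool.Agent.H30.VK
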