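import Pool.Agent.H30.VK.Count
import Pool.Graph.R_seed8.TH138.NF.Main

/-!
# Iterated stepping up: homogeneous sets and types
-/

set_option autoImplicit false

namespace Pool.Agent.H30.VK

open Finset Pool.Agent.Y424.LK

variable {κ : Type}

theorem tw_pos (k x : ℕ) (hx : 1 ≤ x) : 1 ≤ tw k x := by
  cases k with
  | zero => exact hx
  | succ k => exact Nat.one_le_two_pow

theorem tw_tow (k x : ℕ) : (tw k x : ℝ) = tow k x := by
  induction k with
  | zero => rfl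
  | succ k ih =>
    show ((2 ^ tw k x : ℕ) : ℝ) = 2 ^ tow k x
    rw [← ih]
    push_cast
    rw [Real.rpow_natCast]

theorem tow_add (k l : ℕ) (x : ℝ) : tow (k + l) x = tow k (tow l x) := by
  induction k with
  | zero => simp [tow]
  | succ k ih =>
    rw [show k + 1 + l = (k + l) + 1 by omega]
    show (2 : ℝ) ^ tow (k + l) x = 2 ^ tow k (tow l x)
    rw [ih]

theorem tow_mono (k : ℕ) {x y : ℝ} (h : x ≤ y) : tow k x ≤ tow k y := by
  induction k with
  | zero => exact h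
  | succ k ih => exact Real.rpow_le_rpow_of_exponent_le (by norm_num) ih

/-- iterated stepping up, from the uniformity `t + 3` to the uniformity `t + j + 3` -/
noncomputable def iter (a₁ a₂ : κ) (t : ℕ) (c : Finset ℕ → κ) : ℕ → (Finset ℕ → κ)
  | 0 => c
  | j + 1 => stepUp a₁ a₂ (t + j) (iter a₁ a₂ t c j)

theorem hom_iff (r : ℕ) (c : Finset ℕ → κ) (S : Finset ℕ) :
    Pool.Agent.TH138.NF.Homogeneous r c S ↔ Homogeneous r c S := Iff.rfl

theorem hom_iter {a₁ a₂ : κ} (hne : a₁ ≠ a₂) (t : ℕ) (c : Finset ℕ → κ) (M n : ℕ) (hn : 2 ≤ n)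
    (hc : ∀ S ⊆ range M, S.card = n → ¬ Homogeneous (t + 3) c S) (j : ℕ) :
    ∃ h, 2 ≤ h ∧ h + (t + j + 1) = 2 ^ j * (n + t + 1) ∧
      ∀ S ⊆ range (tw j M), S.card = h → ¬ Homogeneous (t + j + 3) (iter a₁ a₂ t c j) S := by
  induction j with
  | zero => exact ⟨n, hn, by ring, hc⟩
  | succ j ih =>
    obtain ⟨h, h1, h2, h3⟩ := ih
    refine ⟨2 * h + (t + j), by omega, ?_, ?_⟩
    · have e1 : 2 ^ (j + 1) * (n + t + 1) = 2 * (2 ^ j * (n + t + 1)) := by ring
      rw [e1, ← h2]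
      ring
    · exact stepUp_lower hne (t + j) (iter a₁ a₂ t c j) (tw j M) h h1 h3

theorem hom_iter' {a₁ a₂ : κ} (hne : a₁ ≠ a₂) (t : ℕ) (c : Finset ℕ → κ) (M n : ℕ) (hn : 2 ≤ n)
    (hc : ∀ S ⊆ range M, S.card = n → ¬ Homogeneous (t + 3) c S) (j n' : ℕ)
    (hn' : 2 ^ j * (n + t + 1) ≤ n') :
    ∀ S ⊆ range (tw j M), S.card = n' → ¬ Homogeneous (t + j + 3) (iter a₁ a₂ t c j) S := by
  obtain ⟨h, h1, h2, h3⟩ := hom_iter hne t c M n hn hc j
  intro S hS hSc hh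
  obtain ⟨T, hT, hTc⟩ := exists_subset_card_eq (s := S) (n := h) (by omega)
  exact h3 T (hT.trans hS) hTc (fun A hA B hB => hh A (hA.trans hT) B (hB.trans hT))

theorem num_base (t p s q m : ℕ) (ht : t ≤ p) (hs : 1 ≤ s) :
    ((m + 1) * (m + 1)) ^ t * 2 ^ (t * t) * q ^ (t * (m + t) ^ s) ≤
      2 ^ ((2 * p + p * p + q * p * (p + 1) ^ s) * (m + 1) ^ s) := by
  have h0 : m + 1 ≤ (m + 1) ^ s := Nat.le_self_pow (by omega) _
  have h1 : ((m + 1) * (m + 1)) ^ t ≤ 2 ^ (2 * p * (m + 1) ^ s) := by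
    have h2 : m + 1 ≤ 2 ^ (m + 1) := Nat.lt_two_pow_self.le
    calc ((m + 1) * (m + 1)) ^ t ≤ (2 ^ (m + 1) * 2 ^ (m + 1)) ^ t := by gcongr
      _ = 2 ^ (2 * t * (m + 1)) := by rw [← pow_add, ← pow_mul]; ring_nf
      _ ≤ 2 ^ (2 * p * (m + 1) ^ s) := Nat.pow_le_pow_right (by norm_num) (by gcongr)
  have h2 : 2 ^ (t * t) ≤ 2 ^ (p * p * (m + 1) ^ s) := by
    apply Nat.pow_le_pow_right (by norm_num)
    calc t * t ≤ p * p := Nat.mul_le_mul ht ht
      _ = p * p * 1 := (mul_one _).symm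
      _ ≤ p * p * (m + 1) ^ s := Nat.mul_le_mul_left _ (Nat.one_le_pow _ _ (by omega))
  have h3 : q ^ (t * (m + t) ^ s) ≤ 2 ^ (q * p * (p + 1) ^ s * (m + 1) ^ s) := by
    calc q ^ (t * (m + t) ^ s) ≤ (2 ^ q) ^ (t * (m + t) ^ s) :=
          Nat.pow_le_pow_left Nat.lt_two_pow_self.le _
      _ = 2 ^ (q * (t * (m + t) ^ s)) := by rw [← pow_mul]
      _ ≤ 2 ^ (q * p * (p + 1) ^ s * (m + 1) ^ s) := by
          apply Nat.pow_le_pow_right (by norm_num)
          have h4 : m + t ≤ (p + 1) * (m + 1) := by nlinarith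
          calc q * (t * (m + t) ^ s) ≤ q * (p * ((p + 1) * (m + 1)) ^ s) := by gcongr
            _ = q * p * (p + 1) ^ s * (m + 1) ^ s := by rw [mul_pow]; ring
  calc _ ≤ 2 ^ (2 * p * (m + 1) ^ s) * 2 ^ (p * p * (m + 1) ^ s) *
        2 ^ (q * p * (p + 1) ^ s * (m + 1) ^ s) := Nat.mul_le_mul (Nat.mul_le_mul h1 h2) h3
    _ = _ := by rw [← pow_add, ← pow_add]; ring_nf

theorem num_step (t p C e m : ℕ) (ht : t ≤ p) (he : 1 ≤ e) :
    (m + 1) ^ t * (((m + 2) * (m + 2)) ^ t * (2 ^ (t * t) * 2 ^ (C * (m + 1 + 1) ^ e))) ≤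
      2 ^ ((3 * p + p * p + C * 2 ^ e) * (m + 1) ^ e) := by
  have h0 : m + 1 ≤ (m + 1) ^ e := Nat.le_self_pow (by omega) _
  have h1 : (m + 1) ^ t ≤ 2 ^ (p * (m + 1) ^ e) := by
    have h2 : m + 1 ≤ 2 ^ (m + 1) := Nat.lt_two_pow_self.le
    calc (m + 1) ^ t ≤ (2 ^ (m + 1)) ^ t := Nat.pow_le_pow_left h2 _
      _ = 2 ^ (t * (m + 1)) := by rw [← pow_mul, mul_comm]
      _ ≤ _ := Nat.pow_le_pow_right (by norm_num) (by gcongr)
  have h1' : ((m + 2) * (m + 2)) ^ t ≤ 2 ^ (2 * p * (m + 1) ^ e) := by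
    have h2 : m + 2 ≤ 2 ^ (m + 1) := Nat.lt_two_pow_self
    calc ((m + 2) * (m + 2)) ^ t ≤ (2 ^ (m + 1) * 2 ^ (m + 1)) ^ t := by gcongr
      _ = 2 ^ (2 * t * (m + 1)) := by rw [← pow_add, ← pow_mul]; ring_nf
      _ ≤ 2 ^ (2 * p * (m + 1) ^ e) := Nat.pow_le_pow_right (by norm_num) (by gcongr)
  have h2 : 2 ^ (t * t) ≤ 2 ^ (p * p * (m + 1) ^ e) := by
    apply Nat.pow_le_pow_right (by norm_num)
    calc t * t ≤ p * p := Nat.mul_le_mul ht ht
      _ = p * p * 1 := (mul_one _).symm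
      _ ≤ p * p * (m + 1) ^ e := Nat.mul_le_mul_left _ (Nat.one_le_pow _ _ (by omega))
  have h3 : 2 ^ (C * (m + 1 + 1) ^ e) ≤ 2 ^ (C * 2 ^ e * (m + 1) ^ e) := by
    apply Nat.pow_le_pow_right (by norm_num)
    calc C * (m + 1 + 1) ^ e ≤ C * (2 * (m + 1)) ^ e := by gcongr; omega
      _ = _ := by rw [mul_pow]; ring
  calc _ ≤ 2 ^ (p * (m + 1) ^ e) * (2 ^ (2 * p * (m + 1) ^ e) * (2 ^ (p * p * (m + 1) ^ e) *
        2 ^ (C * 2 ^ e * (m + 1) ^ e))) := by gcongr
    _ = _ := by rw [← pow_add, ← pow_add, ← pow_add]; ring_nf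

/-- The types of the iterated stepped-up colouring. -/
theorem tc_iter_gen [Fintype κ] (a₁ a₂ : κ) (t e : ℕ) (he : 1 ≤ e)
    (P : (Finset ℕ → κ) → ℕ → Prop)
    (hP : ∀ p : ℕ, ∃ C : ℕ, ∀ (ι : Type) [Fintype ι], Fintype.card ι ≤ p →
      ∀ (N : ℕ) (c : Finset ℕ → κ), P c N → TC c (t + 3) N ι (fun m => 2 ^ (C * (m + 1) ^ e)))
    (j : ℕ) : ∀ p : ℕ, ∃ C : ℕ, ∀ (ι : Type) [Fintype ι], Fintype.card ι ≤ p →
      ∀ (N : ℕ) (c : Finset ℕ → κ), 1 ≤ N → P c N →
        TC (iter a₁ a₂ t c j) (t + j + 3) (tw j N) ι (fun m => 2 ^ (C * (m + 1) ^ e)) := by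
  induction j with
  | zero =>
    intro p
    obtain ⟨C, hC⟩ := hP p
    exact ⟨C, fun ι _ hι N c _ h => hC ι hι N c h⟩
  | succ j ih =>
    intro p
    obtain ⟨C, hC⟩ := ih (p + p * p)
    refine ⟨3 * p + p * p + C * 2 ^ e, fun ι _ hι N c hN hc => ?_⟩
    have hcard : Fintype.card (ι ⊕ ι × ι) ≤ p + p * p := by
      rw [Fintype.card_sum, Fintype.card_prod]
      exact Nat.add_le_add hι (Nat.mul_le_mul hι hι)
    have h1 := hC (ι ⊕ ι × ι) hcard N c hN hc
    have h2 := tc_step (R := t + j + 2) (steps_stepUp a₁ a₂ (t + j) (iter a₁ a₂ t c j) (tw j N))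
      (tw_pos j N hN) ι (β := fun m => 2 ^ (C * (m + 1) ^ e)) (by
        intro m m' hmm
        simp only
        gcongr
        norm_num) h1
    refine TC.mono h2 (fun m => ?_)
    exact num_step _ p C e m hι he

theorem tc_iter [Fintype κ] (a₁ a₂ : κ) (t j p : ℕ) : ∃ C : ℕ, ∀ (ι : Type) [Fintype ι],
    Fintype.card ι ≤ p → ∀ (N : ℕ) (c : Finset ℕ → κ), 1 ≤ N →
      TC (iter a₁ a₂ t c j) (t + j + 3) (tw j N) ι (fun m => 2 ^ (C * (m + 1) ^ (t + 2))) := by
  obtain ⟨C, hC⟩ := tc_iter_gen a₁ a₂ t (t + 2) (by omega) (fun _ _ => True) (by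
    intro p
    refine ⟨2 * p + p * p + Fintype.card κ * p * (p + 1) ^ (t + 2), fun ι _ hι N c _ => ?_⟩
    exact TC.mono (tc_base c (t + 2) N ι)
      (fun m => num_base _ p (t + 2) (Fintype.card κ) m hι (by omega))) j p
  exact ⟨C, fun ι _ hι N c hN => hC ι hι N c hN trivial⟩

theorem traces_iter [Fintype κ] (a₁ a₂ : κ) (t j : ℕ) : ∃ C : ℕ,
    ∀ (N : ℕ) (c : Finset ℕ → κ), 1 ≤ N → ∀ l ≤ t + j + 3, ∀ W ⊆ range (tw j N),
      numTraces (iter a₁ a₂ t c j) (t + j + 3) (tw j N) l W ≤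
        2 ^ (C * (W.card + 1) ^ (t + 2)) := by
  obtain ⟨C, hC⟩ := tc_iter a₁ a₂ t j (t + j + 3)
  refine ⟨C, fun N c hN l hl W hW => ?_⟩
  exact numTraces_le (hC (Fin l) (by rw [Fintype.card_fin]; exact hl) N c hN) hW

/-! ### four colours -/

/-- the colouring of the pairs -/
noncomputable def pairCol (χ : ℕ → ℕ → Bool) (S : Finset ℕ) : Bool :=
  if h : S.Nonempty then χ (S.min' h) (S.max' h) else false

theorem pairCol_pair (χ : ℕ → ℕ → Bool) (a b : ℕ) : pairCol χ {a, b} = χ (min a b) (max a b) := by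
  have h : ({a, b} : Finset ℕ).Nonempty := ⟨a, by simp⟩
  unfold pairCol
  rw [dif_pos h]
  congr 1
  · apply le_antisymm
    · rcases min_choice a b with h1 | h1 <;> rw [h1]
      · exact min'_le _ _ (by simp)
      · exact min'_le _ _ (by simp)
    · have h1 := min'_mem _ h
      simp only [mem_insert, mem_singleton] at h1
      rcases h1 with h1 | h1 <;> rw [h1]
      · exact min_le_left _ _
      · exact min_le_right _ _
  · apply le_antisymm
    · have h1 := max'_mem _ h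
      simp only [mem_insert, mem_singleton] at h1
      rcases h1 with h1 | h1 <;> rw [h1]
      · exact le_max_left _ _
      · exact le_max_right _ _
    · rcases max_choice a b with h1 | h1 <;> rw [h1]
      · exact le_max' _ _ (by simp)
      · exact le_max' _ _ (by simp)

open Pool.Agent.TH138.NF in
theorem steps_pairCol (χ : ℕ → ℕ → Bool) (j : ℕ) :
    Steps (pairCol χ) (colour (base χ j) (false, false)) 1 (2 ^ j) := by
  intro X X' hX hX' hb hb' hpat hmon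
  rw [← computes_colour (base χ j) (false, false) (2 ^ 2 ^ j) X hX hb,
    ← computes_colour (base χ j) (false, false) (2 ^ 2 ^ j) X' hX' hb',
    run_base χ j X hX hb, run_base χ j X' hX' hb']
  have him : ∀ d : Fin 2 → ℕ, univ.image d = {d 0, d 1} := by
    intro d
    ext y
    simp only [mem_image, mem_univ, true_and, mem_insert, mem_singleton]
    constructor
    · rintro ⟨i, rfl⟩
      fin_cases i <;> simp
    · rintro (rfl | rfl)
      · exact ⟨0, rfl⟩
      · exact ⟨1, rfl⟩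
  have hne : D X 0 ≠ D X 1 := by
    have := hd_ne (hX (show (0 : Fin 3) < 1 by simp)) (hX (show (1 : Fin 3) < 2 by
      simp))
    exact this
  have hcases : StrictMono (D X) ∨ StrictAnti (D X) := by
    rcases lt_or_gt_of_ne hne with h | h
    · left
      rw [Fin.strictMono_iff_lt_succ]
      intro i
      fin_cases i
      exact h
    · right
      rw [Fin.strictAnti_iff_succ_lt]
      intro i
      fin_cases i
      exact h
  have h1 := hmon hcases
  rw [him, him, pairCol_pair, pairCol_pair] at h1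
  rw [h1]
  congr 1
  simp only [decide_eq_decide]
  exact hpat 0 1

open Pool.Agent.TH138.NF in
/-- The four-colourings: homogeneous sets and traces. -/
theorem four_colours (j : ℕ) : ∃ C : ℕ, ∀ J : ℕ, ∃ c : Finset ℕ → Bool × Bool,
    (∀ S ⊆ range (tw (j + 2) J), ∀ n : ℕ, 2 ^ j * (4 * J + 6) ≤ n → S.card = n →
      ¬ Homogeneous (j + 3) c S) ∧
    ∀ l ≤ j + 3, ∀ W ⊆ range (tw (j + 2) J),
      numTraces c (j + 3) (tw (j + 2) J) l W ≤ 2 ^ (C * (W.card + 1)) := by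
  obtain ⟨C, hC⟩ := tc_iter_gen (κ := Bool × Bool) (false, false) (true, true) 0 1 le_rfl
    (fun c N => ∃ (χ : ℕ → ℕ → Bool) (J : ℕ), c = colour (base χ J) (false, false) ∧
      N = 2 ^ 2 ^ J) (by
    intro p
    refine ⟨3 * p + p * p + (2 * (p + p * p) + (p + p * p) * (p + p * p) +
      Fintype.card Bool * (p + p * p) * ((p + p * p) + 1) ^ 1) * 2 ^ 1, ?_⟩
    rintro ι _ hι N c ⟨χ, J, rfl, rfl⟩
    have hcard : Fintype.card (ι ⊕ ι × ι) ≤ p + p * p := by
      rw [Fintype.card_sum, Fintype.card_prod]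
      exact Nat.add_le_add hι (Nat.mul_le_mul hι hι)
    have h1 := TC.mono (tc_base (pairCol χ) 1 (2 ^ J) (ι ⊕ ι × ι))
      (fun m => num_base _ (p + p * p) 1 (Fintype.card Bool) m hcard le_rfl)
    have h2 := tc_step (R := 1) (steps_pairCol χ J) Nat.one_le_two_pow ι (β := fun m =>
      2 ^ ((2 * (p + p * p) + (p + p * p) * (p + p * p) +
      Fintype.card Bool * (p + p * p) * ((p + p * p) + 1) ^ 1) * (m + 1) ^ 1)) (by
        intro m m' hmm
        simp only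
        gcongr
        norm_num) h1
    refine TC.mono h2 (fun m => ?_)
    exact num_step _ p _ 1 m hι le_rfl) j (j + 3)
  refine ⟨C, fun J => ?_⟩
  obtain ⟨χ, hχ⟩ := base_lower J
  have h3 : ∀ S ⊆ range (2 ^ 2 ^ J), S.card = 4 * J + 5 →
      ¬ Homogeneous (0 + 3) (colour (base χ J) (false, false)) S := fun S hS hSc hh =>
    hχ S hS hSc (hom_of_homogeneous (computes_colour (base χ J) (false, false) (2 ^ 2 ^ J)) hS hh)
  have htw : tw (j + 2) J = tw j (2 ^ 2 ^ J) := by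
    clear hC h3 hχ
    induction j with
    | zero => rfl
    | succ j ih =>
      show 2 ^ tw (j + 2) J = 2 ^ tw j (2 ^ 2 ^ J)
      rw [ih]
  refine ⟨iter (false, false) (true, true) 0 (colour (base χ J) (false, false)) j, ?_, ?_⟩
  · intro S hS n hn hSc
    have h4 := hom_iter' (a₁ := ((false, false) : Bool × Bool)) (a₂ := (true, true)) (by simp)
      0 (colour (base χ J) (false, false)) (2 ^ 2 ^ J) (4 * J + 5) (by omega) h3 j n
      (by rw [add_zero]; exact hn) S (by rw [← htw]; exact hS) hSc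
    rw [Nat.zero_add] at h4
    exact h4
  · intro l hl W hW
    have h4 := hC (Fin l) (by rw [Fintype.card_fin]; exact hl) (2 ^ 2 ^ J)
      (colour (base χ J) (false, false)) Nat.one_le_two_pow ⟨χ, J, rfl, rfl⟩
    rw [Nat.zero_add, ← htw] at h4
    have h5 := numTraces_le h4 hW
    simpa using h5

end Pool.Agent.H30.VK
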