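import Pool.Agent.H30.VK.Defs
import Pool.Graph.R_seed8.Y424.LK.Trace

/-!
# Shattered sets give many traces, shattered one-dimensional grids and many patterns
-/

set_option autoImplicit false

namespace Pool.Agent.H30.VK

open Finset
open Pool.Agent.Y424.LK (srt srt_mono srt_image)

variable {κ : Type}

/-- `Z ⊆ U < S`, and for every `T ⊆ Z` the vertex `v T` of `U` shows that the neighbourhoods of the
sets `{v} ∪ S` shatter `Z`. -/
structure Sh (c : Finset ℕ → κ) (a : κ) (s N : ℕ) (U S Z : Finset ℕ) (v : Finset ℕ → ℕ) : Prop where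
  hU : U ⊆ range N
  hS : S ⊆ range N
  hc : S.card = s
  hlt : ∀ u ∈ U, ∀ w ∈ S, u < w
  hZ : Z ⊆ U
  hvU : ∀ T ⊆ Z, v T ∈ U
  hv : ∀ T ⊆ Z, ∀ x ∈ Z, ((x ∉ insert (v T) S ∧ c (insert x (insert (v T) S)) = a) ↔ x ∈ T)

namespace Sh

variable {c : Finset ℕ → κ} {a : κ} {s N : ℕ} {U S Z : Finset ℕ} {v : Finset ℕ → ℕ}

theorem notMem (h : Sh c a s N U S Z v) {u : ℕ} (hu : u ∈ U) : u ∉ S := fun hS =>
  lt_irrefl _ (h.hlt u hu u hS)

theorem inj (h : Sh c a s N U S Z v) {T T' : Finset ℕ} (hT : T ⊆ Z) (hT' : T' ⊆ Z)
    (hvv : v T = v T') : T = T' := by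
  ext x
  constructor
  · intro hx
    have h1 := (h.hv T hT x (hT hx)).2 hx
    rw [hvv] at h1
    exact (h.hv T' hT' x (hT hx)).1 h1
  · intro hx
    have h1 := (h.hv T' hT' x (hT' hx)).2 hx
    rw [← hvv] at h1
    exact (h.hv T hT x (hT' hx)).1 h1

theorem trace_iff (h : Sh c a s N U S Z v) {T W : Finset ℕ} (hT : T ⊆ Z) {x : ℕ} (hx : x ∈ Z)
    (hW : insert x S ⊆ W) : trace c (s + 2) W {v T} (insert x S) = some a ↔ x ∈ T := by
  classical
  have hxS : x ∉ S := h.notMem (h.hZ hx)
  have hvS : v T ∉ S := h.notMem (h.hvU T hT)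
  have hcard : (insert x S).card + ({v T} : Finset ℕ).card = s + 2 := by
    rw [card_insert_of_notMem hxS, h.hc, card_singleton]
  have hun : insert x S ∪ {v T} = insert x (insert (v T) S) := by
    ext y
    simp only [mem_union, mem_insert, mem_singleton]
    tauto
  unfold trace
  rw [← h.hv T hT x hx]
  by_cases hxv : x = v T
  · rw [if_neg]
    · constructor
      · intro h1
        exact absurd h1 (by simp)
      · rintro ⟨h1, -⟩
        exact absurd (mem_insert.2 (Or.inl hxv)) h1
    · rintro ⟨-, h1, -⟩
      rw [disjoint_singleton_right] at h1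
      exact h1 (by rw [hxv]; exact mem_insert_self _ _)
  · rw [if_pos]
    · rw [hun, Option.some_inj]
      constructor
      · intro h1
        refine ⟨?_, h1⟩
        rw [mem_insert]
        rintro (h2 | h2)
        · exact hxv h2
        · exact hxS h2
      · exact fun h1 => h1.2
    · refine ⟨hW, ?_, hcard⟩
      rw [disjoint_singleton_right, mem_insert]
      rintro (h2 | h2)
      · exact hxv h2.symm
      · exact hvS h2

/-- many traces -/
theorem traces (h : Sh c a s N U S Z v) {Z₁ : Finset ℕ} (hZ₁ : Z₁ ⊆ Z) :
    (Z₁ ∪ S) ⊆ range N ∧ (Z₁ ∪ S).card = Z₁.card + s ∧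
      2 ^ Z₁.card ≤ numTraces c (s + 2) N 1 (Z₁ ∪ S) := by
  classical
  have hdis : Disjoint Z₁ S := by
    rw [disjoint_left]
    intro x hx
    exact h.notMem (h.hZ (hZ₁ hx))
  refine ⟨?_, ?_, ?_⟩
  · intro x hx
    rcases mem_union.1 hx with hx | hx
    · exact h.hU (h.hZ (hZ₁ hx))
    · exact h.hS hx
  · rw [card_union_of_disjoint hdis, h.hc]
  · unfold numTraces
    have hinj : Set.InjOn (fun T => trace c (s + 2) (Z₁ ∪ S) {v T})
        (Z₁.powerset : Finset (Finset ℕ)) := by
      intro T hT T' hT' heq
      rw [mem_coe, mem_powerset] at hT hT'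
      simp only at heq
      have key : ∀ x ∈ Z₁, x ∈ T ↔ x ∈ T' := by
        intro x hx
        have hsub : insert x S ⊆ Z₁ ∪ S := by
          intro y hy
          rcases mem_insert.1 hy with rfl | hy
          · exact mem_union_left _ hx
          · exact mem_union_right _ hy
        rw [← h.trace_iff (hT.trans hZ₁) (hZ₁ hx) hsub, ← h.trace_iff (hT'.trans hZ₁) (hZ₁ hx) hsub,
          heq]
      ext x
      constructor
      · intro hx
        exact (key x (hT hx)).1 hx
      · intro hx
        exact (key x (hT' hx)).2 hx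
    calc 2 ^ Z₁.card = (Z₁.powerset : Finset (Finset ℕ)).card := (card_powerset _).symm
      _ = Set.ncard ((Z₁.powerset : Finset (Finset ℕ)) : Set (Finset ℕ)) := by
          rw [Set.ncard_coe_finset]
      _ = Set.ncard ((fun T => trace c (s + 2) (Z₁ ∪ S) {v T}) ''
          ((Z₁.powerset : Finset (Finset ℕ)) : Set (Finset ℕ))) := by
          rw [Set.InjOn.ncard_image hinj]
      _ ≤ _ := by
          apply Set.ncard_le_ncard
          · rintro _ ⟨T, hT, rfl⟩
            rw [mem_coe, mem_powerset] at hT
            refine ⟨{v T}, ⟨?_, card_singleton _⟩, rfl⟩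
            rw [singleton_subset_iff]
            exact h.hU (h.hvU T (hT.trans hZ₁))
          · apply Set.Finite.image
            apply Set.Finite.subset ((range N).powerset : Finset (Finset ℕ)).finite_toSet
            intro B hB
            rw [mem_coe, mem_powerset]
            exact hB.1

/-- one-dimensional grids -/
theorem grid (h : Sh c a s N U S Z v) {Z₁ : Finset ℕ} (hZ₁ : Z₁ ⊆ Z)
    (hc : Z.card < 2 ^ (Z \ Z₁).card) :
    GridShattered c a (s + 2) N (fun _ : Fin 1 => 1) Z₁.card := by
  classical
  set e := Z₁.orderEmbOfFin rfl with he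
  have heZ : ∀ j, e j ∈ Z₁ := fun j => orderEmbOfFin_mem _ _ _
  refine ⟨fun _ j => {e j}, fun i j => ⟨?_, card_singleton _⟩,
    fun i i' j j' hne => absurd (Subsingleton.elim i i') hne, fun P => ?_⟩
  · rw [singleton_subset_iff]
    exact h.hU (h.hZ (hZ₁ (heZ j)))
  · set T₁ := Z₁.filter (fun x => ∃ f ∈ P, e (f 0) = x) with hT₁
    have hex : ∃ T₂ ⊆ Z \ Z₁, v (T₁ ∪ T₂) ∉ Z := by
      by_contra hcon
      push Not at hcon
      have h1 : (Z \ Z₁).powerset.card ≤ Z.card := by
        apply card_le_card_of_injOn (fun T₂ => v (T₁ ∪ T₂))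
        · intro T₂ hT₂
          rw [mem_coe, mem_powerset] at hT₂
          exact hcon T₂ hT₂
        · intro T₂ hT₂ T₂' hT₂' heq
          rw [mem_coe, mem_powerset] at hT₂ hT₂'
          have hs : ∀ T ⊆ Z \ Z₁, T₁ ∪ T ⊆ Z := fun T hT =>
            union_subset ((filter_subset _ _).trans hZ₁) (hT.trans sdiff_subset)
          have h2 := h.inj (hs _ hT₂) (hs _ hT₂') heq
          have h3 : ∀ T ⊆ Z \ Z₁, (T₁ ∪ T) \ Z₁ = T := by
            intro T hT
            ext x
            simp only [mem_sdiff, mem_union]
            constructor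
            · rintro ⟨h4 | h4, h5⟩
              · exact absurd ((filter_subset _ _) h4) h5
              · exact h4
            · intro h4
              exact ⟨Or.inr h4, (mem_sdiff.1 (hT h4)).2⟩
          rw [← h3 _ hT₂, ← h3 _ hT₂', h2]
      rw [card_powerset] at h1
      omega
    obtain ⟨T₂, hT₂, hvZ⟩ := hex
    have hTZ : T₁ ∪ T₂ ⊆ Z :=
      union_subset ((filter_subset _ _).trans hZ₁) (hT₂.trans sdiff_subset)
    have hvU := h.hvU _ hTZ
    have hdis : ∀ x ∈ Z₁, x ∉ insert (v (T₁ ∪ T₂)) S := by
      intro x hx hxB
      rcases mem_insert.1 hxB with h1 | h1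
      · exact hvZ (by rw [← h1]; exact hZ₁ hx)
      · exact h.notMem (h.hZ (hZ₁ hx)) h1
    refine ⟨insert (v (T₁ ∪ T₂)) S, ?_, ?_, ?_, ?_⟩
    · intro x hx
      rcases mem_insert.1 hx with rfl | hx
      · exact h.hU hvU
      · exact h.hS hx
    · intro i j
      rw [disjoint_singleton_left]
      exact hdis _ (heZ j)
    · rw [card_insert_of_notMem (h.notMem hvU), h.hc]
      simp
    · intro f
      have hbi : (univ : Finset (Fin 1)).biUnion (fun i => ({e (f i)} : Finset ℕ)) = {e (f 0)} := by
        ext y
        simp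
      rw [hbi]
      have hun : insert (v (T₁ ∪ T₂)) S ∪ {e (f 0)} =
          insert (e (f 0)) (insert (v (T₁ ∪ T₂)) S) := by
        ext y
        simp only [mem_union, mem_insert, mem_singleton]
        tauto
      rw [hun]
      have h1 := h.hv _ hTZ (e (f 0)) (hZ₁ (heZ _))
      have h2 : e (f 0) ∈ T₁ ∪ T₂ ↔ f ∈ P := by
        rw [mem_union]
        constructor
        · rintro (h3 | h3)
          · rw [hT₁, mem_filter] at h3
            obtain ⟨-, f', hf', hff⟩ := h3
            have h4 : f' = f := by
              funext i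
              rw [Subsingleton.elim i 0]
              exact e.injective hff
            rwa [h4] at hf'
          · exact absurd (heZ (f 0)) (mem_sdiff.1 (hT₂ h3)).2
        · intro hf
          left
          rw [hT₁, mem_filter]
          exact ⟨heZ _, f, hf, rfl⟩
      rw [← h2, ← h1]
      exact ⟨fun h3 => ⟨hdis _ (heZ _), h3⟩, fun h3 => h3.2⟩

end Sh

/-- two increasing enumerations with the same positions of the set `Z` -/
theorem same_enum {k : ℕ} {f f' : Fin k → ℕ} (hf : StrictMono f) (hf' : StrictMono f')
    {Z : Finset ℕ} (hZ : Z ⊆ univ.image f) (hZ' : Z ⊆ univ.image f')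
    (h : univ.filter (fun i => f i ∈ Z) = univ.filter (fun i => f' i ∈ Z)) {j : Fin k}
    (hj : f j ∈ Z) : f j = f' j := by
  classical
  set P := univ.filter (fun i => f i ∈ Z) with hP
  have him : ∀ g : Fin k → ℕ, StrictMono g → Z ⊆ univ.image g →
      P = univ.filter (fun i => g i ∈ Z) → P.image g = Z := by
    intro g _ hg hPg
    ext x
    simp only [mem_image]
    constructor
    · rintro ⟨i, hi, rfl⟩
      rw [hPg, mem_filter] at hi
      exact hi.2
    · intro hx
      obtain ⟨i, -, hi⟩ := mem_image.1 (hg hx)
      refine ⟨i, ?_, hi⟩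
      rw [hPg, mem_filter]
      exact ⟨mem_univ _, by rw [hi]; exact hx⟩
  have h1 := him f hf hZ rfl
  have h2 := him f' hf' hZ' h
  have hcard : Z.card = P.card := by
    rw [← h1, card_image_of_injective _ hf.injective]
  set e := P.orderEmbOfFin rfl with he
  have hmem : ∀ g : Fin k → ℕ, P.image g = Z → ∀ l, g (e l) ∈ Z := by
    intro g hg l
    rw [← hg]
    exact mem_image_of_mem _ (orderEmbOfFin_mem _ _ _)
  have e1 := orderEmbOfFin_unique hcard (hmem f h1) (hf.comp e.strictMono)
  have e2 := orderEmbOfFin_unique hcard (hmem f' h2) (hf'.comp e.strictMono)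
  have hjP : j ∈ Set.range e := by
    rw [he, range_orderEmbOfFin]
    rw [mem_coe, hP, mem_filter]
    exact ⟨mem_univ _, hj⟩
  obtain ⟨l, rfl⟩ := hjP
  have h3 := congrFun (e1.trans e2.symm) l
  exact h3

namespace Sh

variable {c : Finset ℕ → κ} {a : κ} {s N : ℕ} {U S Z : Finset ℕ} {v : Finset ℕ → ℕ}

/-- many patterns -/
theorem patterns (h : Sh c a s N U S Z v) (z l : ℕ) (hz : Z.card = z) :
    (2 ^ z - z).choose l ≤ numPatterns c (s + 2) N (z + l + s) * 4 ^ (z + l + s) := by
  classical
  set k := z + l + s with hk
  set V := (Z.powerset.image v) \ Z with hV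
  have hVc : 2 ^ z - z ≤ V.card := by
    have h1 : (Z.powerset.image v).card = 2 ^ z := by
      rw [card_image_of_injOn, card_powerset, hz]
      intro T hT T' hT' heq
      rw [mem_coe, mem_powerset] at hT hT'
      exact h.inj hT hT' heq
    have h2 := le_card_sdiff Z (Z.powerset.image v)
    rw [h1, hz] at h2
    exact h2
  have hVU : ∀ y ∈ V, y ∈ U ∧ y ∉ Z ∧ ∃ T ⊆ Z, v T = y := by
    intro y hy
    rw [hV, mem_sdiff, mem_image] at hy
    obtain ⟨⟨T, hT, rfl⟩, h2⟩ := hy
    rw [mem_powerset] at hT
    exact ⟨h.hvU T hT, h2, T, hT, rfl⟩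
  have hA : ∀ Y ∈ powersetCard l V, (Z ∪ Y ∪ S).card = k ∧ Z ∪ Y ∪ S ⊆ range N := by
    intro Y hY
    rw [mem_powersetCard] at hY
    refine ⟨?_, ?_⟩
    · rw [card_union_of_disjoint, card_union_of_disjoint, hz, hY.2, h.hc]
      · rw [disjoint_left]
        intro x hx hxY
        exact (hVU x (hY.1 hxY)).2.1 hx
      · rw [disjoint_left]
        intro x hx hxS
        rcases mem_union.1 hx with hx | hx
        · exact h.notMem (h.hZ hx) hxS
        · exact h.notMem (hVU x (hY.1 hx)).1 hxS
    · intro x hx
      rcases mem_union.1 hx with hx | hx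
      · rcases mem_union.1 hx with hx | hx
        · exact h.hU (h.hZ hx)
        · exact h.hU (hVU x (hY.1 hx)).1
      · exact h.hS hx
  have hfin : ((fun x : Fin k → ℕ => pattern c (s + 2) x) ''
      {x | StrictMono x ∧ ∀ i, x i < N}).Finite := by
    apply Set.Finite.image
    apply Set.Finite.subset (Set.Finite.pi' (fun _ : Fin k => Set.finite_Iio N))
    intro x hx
    exact hx.2
  have hle : (powersetCard l V).card ≤
      (hfin.toFinset ×ˢ ((univ : Finset (Fin k)).powerset ×ˢ
        (univ : Finset (Fin k)).powerset)).card := by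
    apply card_le_card_of_injOn (fun Y => (pattern c (s + 2) (srt k (Z ∪ Y ∪ S)),
      (univ.filter (fun i => srt k (Z ∪ Y ∪ S) i ∈ Z),
        univ.filter (fun i => srt k (Z ∪ Y ∪ S) i ∈ S))))
    · intro Y hY
      rw [mem_coe] at hY
      obtain ⟨h1, h2⟩ := hA Y hY
      rw [mem_coe]
      simp only [mem_product, Set.Finite.mem_toFinset, mem_powerset]
      refine ⟨⟨_, ⟨srt_mono h1, fun i => ?_⟩, rfl⟩, subset_univ _, subset_univ _⟩
      have h3 : srt k (Z ∪ Y ∪ S) i ∈ univ.image (srt k (Z ∪ Y ∪ S)) :=
        mem_image_of_mem _ (mem_univ _)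
      rw [srt_image h1] at h3
      exact mem_range.1 (h2 h3)
    · intro Y hY Y' hY' heq
      rw [mem_coe] at hY hY'
      simp only [Prod.mk.injEq] at heq
      obtain ⟨q1, q2, q3⟩ := heq
      obtain ⟨c1, -⟩ := hA Y hY
      obtain ⟨c1', -⟩ := hA Y' hY'
      have m1 := srt_mono c1
      have m1' := srt_mono c1'
      have i1 := srt_image c1
      have i1' := srt_image c1'
      set f := srt k (Z ∪ Y ∪ S) with hf
      set f' := srt k (Z ∪ Y' ∪ S) with hf'
      rw [mem_powersetCard] at hY hY'
      have hZf : Z ⊆ univ.image f := by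
        rw [i1]
        intro x hx
        exact mem_union_left _ (mem_union_left _ hx)
      have hZf' : Z ⊆ univ.image f' := by
        rw [i1']
        intro x hx
        exact mem_union_left _ (mem_union_left _ hx)
      have hSf : S ⊆ univ.image f := by
        rw [i1]
        intro x hx
        exact mem_union_right _ hx
      have hSf' : S ⊆ univ.image f' := by
        rw [i1']
        intro x hx
        exact mem_union_right _ hx
      set PS := univ.filter (fun i => f i ∈ S) with hPS
      have himS : ∀ g : Fin k → ℕ, S ⊆ univ.image g → PS = univ.filter (fun i => g i ∈ S) →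
          PS.image g = S := by
        intro g hg hPg
        ext x
        simp only [mem_image]
        constructor
        · rintro ⟨i, hi, rfl⟩
          rw [hPg, mem_filter] at hi
          exact hi.2
        · intro hx
          obtain ⟨i, -, hi⟩ := mem_image.1 (hg hx)
          refine ⟨i, ?_, hi⟩
          rw [hPg, mem_filter]
          exact ⟨mem_univ _, by rw [hi]; exact hx⟩
      have s1 := himS f hSf rfl
      have s2 := himS f' hSf' q3
      have hPSc : PS.card = s := by
        rw [← h.hc]
        conv_rhs => rw [← s1]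
        rw [card_image_of_injective _ m1.injective]
      have hsub : Y ⊆ Y' := by
        intro y hy
        obtain ⟨yU, yZ, T, hT, rfl⟩ := hVU y (hY.1 hy)
        have hyf : v T ∈ univ.image f := by
          rw [i1]
          exact mem_union_left _ (mem_union_right _ hy)
        obtain ⟨i, -, hi⟩ := mem_image.1 hyf
        have hi1 : i ∉ univ.filter (fun i => f i ∈ Z) := by
          rw [mem_filter]
          rintro ⟨-, h1⟩
          rw [hi] at h1
          exact yZ h1
        have hi2 : i ∉ PS := by
          rw [hPS, mem_filter]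
          rintro ⟨-, h1⟩
          rw [hi] at h1
          exact h.notMem yU h1
        have hi1' : f' i ∉ Z := by
          intro h1
          apply hi1
          rw [q2, mem_filter]
          exact ⟨mem_univ _, h1⟩
        have hi2' : f' i ∉ S := by
          intro h1
          apply hi2
          rw [q3, mem_filter]
          exact ⟨mem_univ _, h1⟩
        have hi3 : f' i ∈ Y' := by
          have h1 : f' i ∈ univ.image f' := mem_image_of_mem _ (mem_univ _)
          rw [i1'] at h1
          rcases mem_union.1 h1 with h1 | h1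
          · rcases mem_union.1 h1 with h1 | h1
            · exact absurd h1 hi1'
            · exact h1
          · exact absurd h1 hi2'
        obtain ⟨yU', yZ', T', hT', hvT'⟩ := hVU _ (hY'.1 hi3)
        have hTT : T = T' := by
          have key : ∀ x ∈ Z, x ∈ T ↔ x ∈ T' := by
            intro x hx
            obtain ⟨j, -, hj⟩ := mem_image.1 (hZf hx)
            have hj' : f' j = x := by
              rw [← hj]
              exact (same_enum m1 m1' hZf hZf' q2 (by rw [hj]; exact hx)).symm
            have hji : j ≠ i := by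
              rintro rfl
              apply yZ
              rw [← hi, hj]
              exact hx
            have hjS : j ∉ PS := by
              rw [hPS, mem_filter]
              rintro ⟨-, h1⟩
              rw [hj] at h1
              exact h.notMem (h.hZ hx) h1
            set Q := insert j (insert i PS) with hQ
            have hQc : Q.card = s + 2 := by
              rw [hQ, card_insert_of_notMem, card_insert_of_notMem hi2, hPSc]
              rw [mem_insert]
              rintro (h1 | h1)
              · exact hji h1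
              · exact hjS h1
            have p1 := congrFun q1 Q
            unfold pattern at p1
            rw [if_pos hQc, if_pos hQc, Option.some_inj] at p1
            have im1 : Q.image f = insert x (insert (v T) S) := by
              rw [hQ, image_insert, image_insert, s1, hj, hi]
            have im2 : Q.image f' = insert x (insert (v T') S) := by
              rw [hQ, image_insert, image_insert, s2, hj', ← hvT']
            rw [im1, im2] at p1
            rw [← h.hv T hT x hx, ← h.hv T' hT' x hx, p1]
            have n1 : x ∉ insert (v T) S := by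
              rw [mem_insert]
              rintro (h1 | h1)
              · exact yZ (by rw [← h1]; exact hx)
              · exact h.notMem (h.hZ hx) h1
            have n2 : x ∉ insert (v T') S := by
              rw [mem_insert]
              rintro (h1 | h1)
              · apply yZ'
                rw [← hvT', ← h1]
                exact hx
              · exact h.notMem (h.hZ hx) h1
            exact ⟨fun h1 => ⟨n2, h1.2⟩, fun h1 => ⟨n1, h1.2⟩⟩
          ext x
          constructor
          · intro hx
            exact (key x (hT hx)).1 hx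
          · intro hx
            exact (key x (hT' hx)).2 hx
        rw [hTT, hvT']
        exact hi3
      exact eq_of_subset_of_card_le hsub (by rw [hY.2, hY'.2])
  rw [card_powersetCard, card_product, card_product, card_powerset, card_univ, Fintype.card_fin]
    at hle
  unfold numPatterns
  rw [Set.ncard_eq_toFinset_card _ hfin]
  calc (2 ^ z - z).choose l ≤ V.card.choose l := Nat.choose_le_choose l hVc
    _ ≤ hfin.toFinset.card * (2 ^ k * 2 ^ k) := hle
    _ = hfin.toFinset.card * 4 ^ k := by
        rw [← pow_add, ← two_mul, pow_mul]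
        norm_num

/-- restriction to a subset -/
theorem sub (h : Sh c a s N U S Z v) {Z₁ : Finset ℕ} (hZ₁ : Z₁ ⊆ Z) : Sh c a s N U S Z₁ v :=
  ⟨h.hU, h.hS, h.hc, h.hlt, hZ₁.trans h.hZ, fun T hT => h.hvU T (hT.trans hZ₁),
    fun T hT x hx => h.hv T (hT.trans hZ₁) x (hZ₁ hx)⟩

end Sh

end Pool.Agent.H30.VK
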