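import Pool.Agent.H30.VK.Patt
import Pool.Agent.H30.VK.Need
import Pool.Graph.R_seed8.Y424.LK.QMain

/-!
# The main statements
-/

set_option autoImplicit false

namespace Pool.Agent.H30.VK

open Finset

theorem tow_eq (k : ℕ) (x : ℝ) : Pool.Agent.TH138.NF.tow k x = tow k x := by
  induction k with
  | zero => rfl
  | succ k ih =>
    show (2 : ℝ) ^ Pool.Agent.TH138.NF.tow k x = 2 ^ tow k x
    rw [ih]

/-! ### necessity -/

theorem two_mul_lt (e : ℕ) (he : 3 ≤ e) : 2 * e < 2 ^ e := by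
  induction e with
  | zero => omega
  | succ e ih =>
    rcases Nat.lt_or_ge e 3 with h | h
    · have : e = 2 := by omega
      subst this
      norm_num
    · have h1 := ih h
      rw [pow_succ]
      omega

theorem four_mul_lt (e : ℕ) (he : 4 ≤ e) : 2 * e ≤ 2 ^ (e - 1) := by
  obtain ⟨f, rfl⟩ : ∃ f, e = f + 1 := ⟨e - 1, by omega⟩
  rw [Nat.add_sub_cancel]
  have := two_mul_lt f (by omega)
  rcases Nat.lt_or_ge f 4 with h | h
  · have : f = 3 := by omega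
    subst this
    norm_num
  · obtain ⟨g, rfl⟩ : ∃ g, f = g + 1 := ⟨f - 1, by omega⟩
    have := two_mul_lt g (by omega)
    rw [pow_succ]
    omega

theorem pow_four_le (l : ℕ) (hl : 16 ≤ l) : l ^ 4 ≤ 2 ^ l := by
  induction l with
  | zero => omega
  | succ l ih =>
    rcases Nat.lt_or_ge l 16 with h | h
    · have : l = 15 := by omega
      subst this
      norm_num
    · have h1 := ih h
      rw [pow_succ 2 l]
      have h2 : (l + 1) ^ 4 ≤ 2 * l ^ 4 := by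
        obtain ⟨m, rfl⟩ : ∃ m, l = m + 16 := ⟨l - 16, by omega⟩
        ring_nf
        nlinarith [Nat.zero_le m, Nat.zero_le (m ^ 2), Nat.zero_le (m ^ 3), Nat.zero_le (m ^ 4)]
      omega

theorem num_patt (s k P : ℕ) (hk : 60 + 18 * s ≤ k)
    (h : (2 ^ (k - s - (k - s) / 2) - (k - s - (k - s) / 2)).choose ((k - s) / 2) ≤ P * 4 ^ k) :
    (2 : ℝ) ^ ((k : ℝ) ^ 2 / 16) ≤ P := by
  set l := (k - s) / 2 with hl
  set z := k - s - l with hz
  have hl1 : 28 + 8 * s ≤ l := by omega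
  have hlz : l ≤ z := by omega
  have hkl : k ≤ 2 * l + 1 + s := by omega
  have h1 : 2 ^ (z - 1) ≤ 2 ^ z - z + 1 - l := by
    have h2 := four_mul_lt z (by omega)
    have h3 : 2 ^ z = 2 ^ (z - 1) * 2 := by
      rw [← pow_succ]
      congr 1
      omega
    omega
  have h2 : (2 ^ (z - 1)) ^ l ≤ l.factorial * (2 ^ z - z).choose l := by
    refine (Nat.pow_le_pow_left h1 l).trans ?_
    rw [← Nat.descFactorial_eq_factorial_mul_choose]
    exact Nat.pow_sub_le_descFactorial (2 ^ z - z) l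
  have h3 : l.factorial ≤ l ^ l := Nat.factorial_le_pow l
  have h4 : (2 ^ (l - 1)) ^ l ≤ l ^ l * (P * 4 ^ k) := by
    calc (2 ^ (l - 1)) ^ l ≤ (2 ^ (z - 1)) ^ l :=
          Nat.pow_le_pow_left (Nat.pow_le_pow_right (by norm_num) (by omega)) l
      _ ≤ l.factorial * (2 ^ z - z).choose l := h2
      _ ≤ l ^ l * (P * 4 ^ k) := Nat.mul_le_mul h3 h
  have h5 : 2 ^ (4 * (l - 1) * l) ≤ 2 ^ (l * l + 8 * (2 * l + 1 + s)) * P ^ 4 := by
    calc 2 ^ (4 * (l - 1) * l) = ((2 ^ (l - 1)) ^ l) ^ 4 := by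
          rw [← pow_mul, ← pow_mul]
          congr 1
          ring
      _ ≤ (l ^ l * (P * 4 ^ k)) ^ 4 := Nat.pow_le_pow_left h4 4
      _ = (l ^ 4) ^ l * (2 ^ (8 * k) * P ^ 4) := by
          rw [mul_pow, mul_pow, ← pow_mul, ← pow_mul, mul_comm l 4]
          rw [show (4 : ℕ) = 2 ^ 2 by norm_num, ← pow_mul, ← pow_mul]
          ring_nf
      _ ≤ (2 ^ l) ^ l * (2 ^ (8 * (2 * l + 1 + s)) * P ^ 4) := by
          have := pow_four_le l (by omega)
          gcongr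
          norm_num
      _ = 2 ^ (l * l + 8 * (2 * l + 1 + s)) * P ^ 4 := by
          rw [← pow_mul, ← mul_assoc, ← pow_add]
  have h6 : 2 ^ (2 * l * l) ≤ P ^ 4 := by
    have h7 : 2 * l * l + (l * l + 8 * (2 * l + 1 + s)) ≤ 4 * (l - 1) * l := by
      obtain ⟨m, hm⟩ : ∃ m, l = m + 28 + 8 * s := ⟨l - 28 - 8 * s, by omega⟩
      have e1 : l - 1 = m + 27 + 8 * s := by omega
      rw [e1, hm]
      nlinarith [Nat.zero_le m, Nat.zero_le s, Nat.zero_le (m * s)]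
    have h8 : 2 ^ (l * l + 8 * (2 * l + 1 + s)) * 2 ^ (2 * l * l) ≤
        2 ^ (l * l + 8 * (2 * l + 1 + s)) * P ^ 4 := by
      rw [← pow_add]
      refine le_trans (Nat.pow_le_pow_right (by norm_num) ?_) h5
      omega
    exact Nat.le_of_mul_le_mul_left h8 (by positivity)
  by_contra hcon
  push Not at hcon
  have hP0 : (0 : ℝ) ≤ P := Nat.cast_nonneg P
  have h9 : (P : ℝ) ^ 4 < (2 : ℝ) ^ ((k : ℝ) ^ 2 / 4) := by
    calc (P : ℝ) ^ 4 < ((2 : ℝ) ^ ((k : ℝ) ^ 2 / 16)) ^ 4 :=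
          pow_lt_pow_left₀ hcon hP0 (by norm_num)
      _ = (2 : ℝ) ^ ((k : ℝ) ^ 2 / 4) := by
          rw [← Real.rpow_natCast, ← Real.rpow_mul (by norm_num)]
          congr 1
          push_cast
          ring
  have h10 : (2 : ℝ) ^ ((k : ℝ) ^ 2 / 4) ≤ (2 : ℝ) ^ (2 * l * l : ℕ) := by
    have e1 : (2 : ℝ) ^ (2 * l * l : ℕ) = (2 : ℝ) ^ (((2 * l * l : ℕ) : ℝ)) :=
      (Real.rpow_natCast _ _).symm
    rw [e1]
    apply Real.rpow_le_rpow_of_exponent_le (by norm_num)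
    push_cast
    have h11 : 3 * k ≤ 8 * l := by omega
    have h12 : (3 : ℝ) * k ≤ 8 * l := by exact_mod_cast h11
    have hk0 : (0 : ℝ) ≤ k := Nat.cast_nonneg k
    nlinarith
  have h13 : ((2 : ℝ) ^ (2 * l * l : ℕ)) ≤ (P : ℝ) ^ 4 := by exact_mod_cast h6
  linarith

theorem need (q s : ℕ) (ε : ℝ) (hε : 0 < ε) (hε1 : ε ≤ 1) : ∃ δ : ℝ, 0 < δ ∧ ∃ n₀ : ℕ,
    ∀ (κ : Type) [Fintype κ], Fintype.card κ = q →
    ∀ n N : ℕ, n₀ ≤ n → tow (s + 1) (ε * n) ≤ N → ∀ c : Finset ℕ → κ,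
      (∀ H ⊆ range N, H.card = n → ¬ Homogeneous (s + 2) c H) →
      (∃ a : κ, ∀ m : ℕ, (m : ℝ) ≤ δ * n →
        GridShattered c a (s + 2) N (fun _ : Fin 1 => 1) m) ∧
      (∀ m : ℕ, (m : ℝ) ≤ δ * n → ∃ W ⊆ range N, W.card = m + s ∧
        2 ^ m ≤ numTraces c (s + 2) N 1 W) ∧
      (∀ k : ℕ, 60 + 18 * s ≤ k → (k : ℝ) ≤ δ * n →
        (2 : ℝ) ^ ((k : ℝ) ^ 2 / 16) ≤ numPatterns c (s + 2) N k) := by
  classical
  obtain ⟨c₀, hc₀, hst⟩ := Pool.Agent.Y424.LK.structQ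
  obtain ⟨n₁, hn₁⟩ := hst q s ε hε hε1
  rcases Nat.eq_zero_or_pos q with hq0 | hq1
  · refine ⟨1, one_pos, 0, ?_⟩
    intro κ _ hκ n N _ _ c _
    have : 0 < Fintype.card κ := Fintype.card_pos_iff.2 ⟨c ∅⟩
    omega
  have hq1' : (1 : ℝ) ≤ q := by exact_mod_cast hq1
  have hlog : 0 < Real.log (2 * q / ε) := by
    apply Real.log_pos
    rw [lt_div_iff₀ hε]
    linarith
  set δ := c₀ * ε / ((q : ℝ) ^ 3 * Real.log (2 * q / ε)) / 2 with hδ
  have hδ0 : 0 < δ := by positivity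
  obtain ⟨n₂, hn₂⟩ := exists_nat_gt (5 / (2 * δ))
  refine ⟨δ, hδ0, max n₁ n₂, ?_⟩
  intro κ _ hκ n N hn hN c hc
  rw [← tow_eq] at hN
  obtain ⟨U, S, hU, hS, -, hSc, hlt, -, -, a, Z, hZ, hsh, hZc⟩ :=
    hn₁ κ hκ n N ((le_max_left _ _).trans hn) hN c hc
  have hZc' : 2 * (δ * n) ≤ Z.card := by
    refine le_trans (le_of_eq ?_) hZc
    rw [hδ]
    ring
  have hn5 : (5 : ℝ) ≤ 2 * (δ * n) := by
    have h1 : (n₂ : ℝ) ≤ n := by exact_mod_cast (le_max_right _ _).trans hn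
    have h2 : 5 / (2 * δ) < n := lt_of_lt_of_le hn₂ h1
    rw [div_lt_iff₀ (by positivity)] at h2
    linarith
  have hZ5 : 5 ≤ Z.card := by
    have : (5 : ℝ) ≤ Z.card := hn5.trans hZc'
    exact_mod_cast this
  have hch : ∀ T : Finset ℕ, ∃ u, T ⊆ Z → u ∈ U ∧
      ∀ x ∈ Z, ((x ∉ insert u S ∧ c (insert x (insert u S)) = a) ↔ x ∈ T) := by
    intro T
    by_cases hT : T ⊆ Z
    · obtain ⟨A, ⟨u, hu, rfl⟩, h1⟩ := hsh T hT
      exact ⟨u, fun _ => ⟨hu, h1⟩⟩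
    · exact ⟨0, fun h => absurd h hT⟩
  choose v hv using hch
  have hSh : Sh c a s N U S Z v :=
    ⟨hU, hS, hSc, hlt, hZ, fun T hT => (hv T hT).1, fun T hT => (hv T hT).2⟩
  refine ⟨⟨a, fun m hm => ?_⟩, fun m hm => ?_, fun k hk hkn => ?_⟩
  · have hm2 : 2 * m ≤ Z.card := by
      have : 2 * (m : ℝ) ≤ Z.card := by linarith
      exact_mod_cast this
    obtain ⟨Z₁, hZ₁, hZ₁c⟩ := exists_subset_card_eq (s := Z) (n := m) (by omega)
    rw [← hZ₁c]
    apply hSh.grid hZ₁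
    have h1 : (Z \ Z₁).card = Z.card - m := by rw [card_sdiff_of_subset hZ₁, hZ₁c]
    have h2 := two_mul_lt (Z \ Z₁).card (by omega)
    omega
  · have hm2 : m ≤ Z.card := by
      have : (m : ℝ) ≤ Z.card := by linarith
      exact_mod_cast this
    obtain ⟨Z₁, hZ₁, hZ₁c⟩ := exists_subset_card_eq (s := Z) (n := m) hm2
    obtain ⟨h1, h2, h3⟩ := hSh.traces hZ₁
    exact ⟨Z₁ ∪ S, h1, by rw [h2, hZ₁c], by rw [← hZ₁c]; exact h3⟩
  · have hk2 : k ≤ Z.card := by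
      have : (k : ℝ) ≤ Z.card := by linarith
      exact_mod_cast this
    obtain ⟨Z₁, hZ₁, hZ₁c⟩ := exists_subset_card_eq (s := Z) (n := k - s - (k - s) / 2)
      (by omega)
    have h1 := (hSh.sub hZ₁).patterns (k - s - (k - s) / 2) ((k - s) / 2) hZ₁c
    have e1 : k - s - (k - s) / 2 + (k - s) / 2 + s = k := by omega
    rw [e1] at h1
    exact num_patt s k _ hk h1

/-! ### four colours -/

open Pool.Agent.TH138.NF (base colour base_lower hom_of_homogeneous computes_colour) in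
open Pool.Agent.Y424.LK in
theorem pc_four (χ : ℕ → ℕ → Bool) (J : ℕ) (m : ℕ) :
    PC (colour (base χ J) (false, false)) 3 (2 ^ 2 ^ J) m
      ((m + 1) ^ (1 * (m + 1) + 1) * 2 ^ m.choose 2) := by
  rcases m with _ | m
  · exact PC.mono (pc_zero _ _ _ (by norm_num)) (by simp)
  · have h1 := pc_base (pairCol χ) 2 (2 ^ J) m
    have h2 := pc_step (R := 1) (steps_pairCol χ J) h1
    refine PC.mono h2 ?_
    have h3 := num_pc 2 2 0 m (by norm_num)
    have h4 : (m + 2) * (m ^ m * ((m + 1) * Fintype.card Bool ^ m.choose 2)) =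
        (m + 2) * (m ^ m * ((m + 1) ^ (0 * (m + 1) + 1) * 2 ^ m.choose 2)) := by
      rw [Fintype.card_bool]
      ring
    rw [h4]
    exact h3

open Pool.Agent.TH138.NF (base colour base_lower hom_of_homogeneous computes_colour) in
open Pool.Agent.Y424.LK in
/-- The four-colourings: homogeneous sets, traces, patterns. -/
theorem four_all (j : ℕ) : ∃ C : ℕ, ∀ J : ℕ, ∃ c : Finset ℕ → Bool × Bool,
    (∀ S ⊆ range (tw (j + 2) J), ∀ n : ℕ, 2 ^ j * (4 * J + 6) ≤ n → S.card = n →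
      ¬ Homogeneous (j + 3) c S) ∧
    (∀ l ≤ j + 3, ∀ W ⊆ range (tw (j + 2) J),
      numTraces c (j + 3) (tw (j + 2) J) l W ≤ 2 ^ (C * (W.card + 1))) ∧
    ∀ k, numPatterns c (j + 3) (tw (j + 2) J) k ≤
      (k + 1) ^ ((j + 1) * (k + 1) + 1) * 2 ^ k.choose 2 := by
  obtain ⟨C, hC⟩ := tc_iter_gen (κ := Bool × Bool) (false, false) (true, true) 0 1 le_rfl
    (fun c N => ∃ (χ : ℕ → ℕ → Bool) (J : ℕ), c = colour (base χ J) (false, false) ∧
      N = 2 ^ 2 ^ J) (by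
    intro p
    refine ⟨3 * p + p * p + (2 * (p + p * p) + (p + p * p) * (p + p * p) +
      Fintype.card Bool * (p + p * p) * ((p + p * p) + 1) ^ 1) * 2 ^ 1, ?_⟩
    rintro ι _ hι N c ⟨χ, J, rfl, rfl⟩
    have hcard : Fintype.card (ι ⊕ ι × ι) ≤ p + p * p := by
      rw [Fintype.card_sum, Fintype.card_prod]
      exact Nat.add_le_add hι (Nat.mul_le_mul hι hι)
    have h1 := TC.mono (tc_base (pairCol χ) 1 (2 ^ J) (ι ⊕ ι × ι))
      (fun m => num_base _ (p + p * p) 1 (Fintype.card Bool) m hcard le_rfl)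
    have h2 := tc_step (R := 1) (steps_pairCol χ J) Nat.one_le_two_pow ι (β := fun m =>
      2 ^ ((2 * (p + p * p) + (p + p * p) * (p + p * p) +
      Fintype.card Bool * (p + p * p) * ((p + p * p) + 1) ^ 1) * (m + 1) ^ 1)) (by
        intro m m' hmm
        simp only
        gcongr
        norm_num) h1
    refine TC.mono h2 (fun m => ?_)
    exact num_step _ p _ 1 m hι le_rfl) j (j + 3)
  refine ⟨C, fun J => ?_⟩
  obtain ⟨χ, hχ⟩ := base_lower J
  have h3 : ∀ S ⊆ range (2 ^ 2 ^ J), S.card = 4 * J + 5 →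
      ¬ Homogeneous (0 + 3) (colour (base χ J) (false, false)) S := fun S hS hSc hh =>
    hχ S hS hSc (hom_of_homogeneous (computes_colour (base χ J) (false, false) (2 ^ 2 ^ J)) hS hh)
  have htw : tw (j + 2) J = tw j (2 ^ 2 ^ J) := by
    clear hC h3 hχ
    induction j with
    | zero => rfl
    | succ j ih =>
      show 2 ^ tw (j + 2) J = 2 ^ tw j (2 ^ 2 ^ J)
      rw [ih]
  refine ⟨iter (false, false) (true, true) 0 (colour (base χ J) (false, false)) j, ?_, ?_, ?_⟩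
  · intro S hS n hn hSc
    have h4 := hom_iter' (a₁ := ((false, false) : Bool × Bool)) (a₂ := (true, true)) (by simp)
      0 (colour (base χ J) (false, false)) (2 ^ 2 ^ J) (4 * J + 5) (by omega) h3 j n
      (by rw [add_zero]; exact hn) S (by rw [← htw]; exact hS) hSc
    rw [Nat.zero_add] at h4
    exact h4
  · intro l hl W hW
    have h4 := hC (Fin l) (by rw [Fintype.card_fin]; exact hl) (2 ^ 2 ^ J)
      (colour (base χ J) (false, false)) Nat.one_le_two_pow ⟨χ, J, rfl, rfl⟩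
    rw [Nat.zero_add, ← htw] at h4
    have h5 := numTraces_le h4 hW
    simpa using h5
  · intro k
    have h4 := pc_iter_gen ((false, false) : Bool × Bool) (true, true) 0 2 2 (2 ^ 2 ^ J) 1
      (by norm_num) (colour (base χ J) (false, false)) (pc_four χ J) j k
    rw [Nat.zero_add, ← htw] at h4
    have h5 := numPatterns_le h4
    rwa [Nat.add_comm 1 j] at h5

theorem tw_mono_left {J J' : ℕ} (k : ℕ) (h : J ≤ J') : tw k J ≤ tw k J' := by
  induction k with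
  | zero => exact h
  | succ k ih => exact Nat.pow_le_pow_right (by norm_num) ih

/-- **Four colours.** -/
theorem four_main (s : ℕ) : ∃ C : ℕ, 1 ≤ C ∧ ∀ n : ℕ, C ≤ n →
    ∃ (N : ℕ) (c : Finset ℕ → Bool × Bool), tow (s + 2) ((n : ℝ) / C) ≤ N ∧
      (∀ H ⊆ range N, H.card = n → ¬ Homogeneous (s + 3) c H) ∧
      (∀ k : ℕ, 2 ≤ k → VCkLE c (s + 3) N k C) ∧
      (∀ l ≤ s + 3, ∀ W ⊆ range N, numTraces c (s + 3) N l W ≤ 2 ^ (C * (W.card + 1))) ∧
      ∀ k : ℕ, numPatterns c (s + 3) N k ≤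
        (k + 1) ^ ((s + 1) * (k + 1) + 1) * 2 ^ k.choose 2 := by
  obtain ⟨C, hC⟩ := four_all s
  refine ⟨16 * 2 ^ s + C * (s + 4), by
    have : 0 < 2 ^ s := by positivity
    omega, fun n hn => ?_⟩
  set C' := 16 * 2 ^ s + C * (s + 4) with hC'
  have hCC' : C ≤ C' := by
    have : C * 1 ≤ C * (s + 4) := Nat.mul_le_mul_left _ (by omega)
    omega
  have hp : 0 < 2 ^ s := by positivity
  set x := n / 2 ^ s with hx
  have hx16 : 16 ≤ x := by
    rw [hx, Nat.le_div_iff_mul_le hp]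
    omega
  obtain ⟨c, h1, h2, h3⟩ := hC ((x - 6) / 4)
  refine ⟨tw (s + 2) ((x - 6) / 4), c, ?_, ?_, ?_, ?_, h3⟩
  · rw [tw_tow]
    apply tow_mono
    have hx1 : (n : ℝ) ≤ 2 ^ s * (x + 1) := by
      have : n < 2 ^ s * (x + 1) := Nat.lt_mul_div_succ n hp
      exact_mod_cast this.le
    have hC'0 : (0 : ℝ) < C' := by
      have : 0 < C' := by positivity
      exact_mod_cast this
    have hC'1 : (16 * 2 ^ s : ℝ) ≤ C' := by
      have : 16 * 2 ^ s ≤ C' := Nat.le_add_right _ _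
      exact_mod_cast this
    have h4 : x + 1 ≤ 16 * ((x - 6) / 4) := by omega
    have h5 : (x : ℝ) + 1 ≤ 16 * (((x - 6) / 4 : ℕ) : ℝ) := by exact_mod_cast h4
    rw [div_le_iff₀ hC'0]
    calc (n : ℝ) ≤ 2 ^ s * (x + 1) := hx1
      _ ≤ 2 ^ s * (16 * (((x - 6) / 4 : ℕ) : ℝ)) := by gcongr
      _ = (((x - 6) / 4 : ℕ) : ℝ) * (16 * 2 ^ s) := by ring
      _ ≤ (((x - 6) / 4 : ℕ) : ℝ) * C' := by gcongr
  · intro H hH hHc
    refine h1 H hH n ?_ hHc
    have h4 : 4 * ((x - 6) / 4) + 6 ≤ x := by omega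
    calc 2 ^ s * (4 * ((x - 6) / 4) + 6) ≤ 2 ^ s * x := Nat.mul_le_mul_left _ h4
      _ ≤ n := Nat.mul_div_le n (2 ^ s)
  · intro k hk a g d hg hd
    have h4 := vck_of_traces (e := 1) (C := C) (fun l hl W hW => by
      have := h2 l hl W hW
      simpa using this) k hk a g d hg hd
    refine h4.trans ?_
    rw [pow_one]
    have e1 : s + 3 + 1 = s + 4 := rfl
    rw [e1]
    exact Nat.le_add_left _ _
  · intro l hl W hW
    exact (h2 l hl W hW).trans (Nat.pow_le_pow_right (by norm_num)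
      (Nat.mul_le_mul_right _ hCC'))

/-! ### any number of colours -/

theorem transfer (κ : Type) [Fintype κ] (a₁ a₂ : κ) (hne : a₁ ≠ a₂) (t j : ℕ) :
    ∃ C : ℕ, ∀ (M n : ℕ), 1 ≤ M → 2 ≤ n → ∀ c : Finset ℕ → κ,
      (∀ H ⊆ range M, H.card = n → ¬ Homogeneous (t + 3) c H) →
      ∃ c' : Finset ℕ → κ,
        (∀ n', 2 ^ j * (n + t + 1) ≤ n' → ∀ H ⊆ range (tw j M), H.card = n' →
          ¬ Homogeneous (t + j + 3) c' H) ∧
        (∀ k : ℕ, t + 3 ≤ k → VCkLE c' (t + j + 3) (tw j M) k C) ∧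
        (∀ l ≤ t + j + 3, ∀ W ⊆ range (tw j M),
          numTraces c' (t + j + 3) (tw j M) l W ≤ 2 ^ (C * (W.card + 1) ^ (t + 2))) ∧
        ∀ k : ℕ, numPatterns c' (t + j + 3) (tw j M) k ≤
          (k + 1) ^ (j * (k + 1) + 1) * Fintype.card κ ^ k.choose (t + 3) := by
  obtain ⟨C, hC⟩ := traces_iter a₁ a₂ t j
  refine ⟨C * (t + j + 4) ^ (t + 2), fun M n hM hn c hc => ?_⟩
  have hCC' : C ≤ C * (t + j + 4) ^ (t + 2) := Nat.le_mul_of_pos_right _ (by positivity)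
  refine ⟨iter a₁ a₂ t c j, ?_, ?_, ?_, ?_⟩
  · intro n' hn' H hH hHc
    exact hom_iter' hne t c M n hn hc j n' hn' H hH hHc
  · intro k hk
    exact vck_of_traces (hC M c hM) k hk
  · intro l hl W hW
    exact (hC M c hM l hl W hW).trans (Nat.pow_le_pow_right (by norm_num)
      (Nat.mul_le_mul_right _ hCC'))
  · intro k
    exact numPatterns_le (pc_iter a₁ a₂ t M c j k)

/-- **The consequence for the question of Erdős.** -/
theorem erdos (t j : ℕ) (h : TowerGrowth (t + 3) (fun _ _ => True)) : ∃ C : ℕ,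
    TowerGrowth (t + j + 3) (fun N c =>
      (∀ k : ℕ, t + 3 ≤ k → VCkLE c (t + j + 3) N k C) ∧
      (∀ l ≤ t + j + 3, ∀ W ⊆ range N,
        numTraces c (t + j + 3) N l W ≤ 2 ^ (C * (W.card + 1) ^ (t + 2))) ∧
      ∀ k : ℕ, numPatterns c (t + j + 3) N k ≤
        (k + 1) ^ (j * (k + 1) + 1) * 2 ^ k.choose (t + 3)) := by
  obtain ⟨C, hC⟩ := transfer Bool false true (by simp) t j
  obtain ⟨ε, hε, n₀, hn₀⟩ := h
  refine ⟨C, ε / 2 ^ (j + 1), by positivity, 2 ^ (j + 1) * (n₀ + t + 4), fun n hn => ?_⟩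
  have hp : 0 < 2 ^ j := by positivity
  set x := n / 2 ^ j with hx
  have hx1 : 2 * (n₀ + t + 4) ≤ x := by
    rw [hx, Nat.le_div_iff_mul_le hp]
    calc 2 * (n₀ + t + 4) * 2 ^ j = 2 ^ (j + 1) * (n₀ + t + 4) := by rw [pow_succ]; ring
      _ ≤ n := hn
  obtain ⟨M, c, h1, h2, -⟩ := hn₀ (x - (t + 1)) (by omega)
  have hM : 1 ≤ M := by
    have h3 : (1 : ℝ) ≤ tow (t + 3 - 1) (ε * ((x - (t + 1) : ℕ) : ℝ)) := by
      show (1 : ℝ) ≤ tow (t + 2) _
      have h4 : (0 : ℝ) ≤ tow (t + 1) (ε * ((x - (t + 1) : ℕ) : ℝ)) := by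
        show (0 : ℝ) ≤ 2 ^ tow t _
        positivity
      exact Real.one_le_rpow (by norm_num) h4
    have h5 : (1 : ℝ) ≤ M := h3.trans h1
    exact_mod_cast h5
  obtain ⟨c', g1, g2, g3, g4⟩ := hC M (x - (t + 1)) hM (by omega) c h2
  refine ⟨tw j M, c', ?_, ?_, g2, g3, ?_⟩
  · have e1 : t + j + 3 - 1 = j + (t + 2) := by omega
    rw [e1, tow_add, tw_tow]
    apply tow_mono
    refine le_trans ?_ h1
    show tow (t + 2) _ ≤ tow (t + 2) _
    apply tow_mono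
    have h3 : (n : ℝ) ≤ 2 ^ j * (x + 1) := by
      have : n < 2 ^ j * (x + 1) := Nat.lt_mul_div_succ n hp
      exact_mod_cast this.le
    have h4 : x + 1 ≤ 2 * (x - (t + 1)) := by omega
    have h5 : (x : ℝ) + 1 ≤ 2 * ((x - (t + 1) : ℕ) : ℝ) := by exact_mod_cast h4
    calc ε / 2 ^ (j + 1) * n ≤ ε / 2 ^ (j + 1) * (2 ^ j * (2 * ((x - (t + 1) : ℕ) : ℝ))) := by
          apply mul_le_mul_of_nonneg_left _ (by positivity)
          refine h3.trans ?_
          gcongr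
      _ = ε * ((x - (t + 1) : ℕ) : ℝ) := by
          rw [pow_succ]
          field_simp
  · intro S hS hSc
    refine g1 n ?_ S hS hSc
    have h3 : x - (t + 1) + t + 1 = x := by omega
    rw [h3]
    exact Nat.mul_div_le n (2 ^ j)
  · intro k
    have := g4 k
    rwa [Fintype.card_bool] at this

end Pool.Agent.H30.VK
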