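import Pool.Agent.H30.VK.Iter

/-!
# Stepping up and the number of patterns
-/

set_option autoImplicit false

namespace Pool.Agent.H30.VK

open Finset Pool.Agent.Y424.LK
open Pool.Agent.TH138.NF (hd D hd_max hd_lt)

variable {κ κ' : Type}

/-- the increasing enumeration -/
noncomputable def en (A : Finset ℕ) (i : ℕ) : ℕ :=
  if h : i < A.card then A.orderEmbOfFin rfl ⟨i, h⟩ else 0

theorem en_mem {A : Finset ℕ} {i : ℕ} (h : i < A.card) : en A i ∈ A := by
  unfold en
  rw [dif_pos h]
  exact orderEmbOfFin_mem _ _ _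

theorem en_lt {A : Finset ℕ} {i j : ℕ} (hij : i < j) (hj : j < A.card) : en A i < en A j := by
  unfold en
  rw [dif_pos hj, dif_pos (hij.trans hj)]
  exact (A.orderEmbOfFin rfl).strictMono (by simpa using hij)

theorem en_lt_iff {A : Finset ℕ} {i j : ℕ} (hi : i < A.card) (hj : j < A.card) :
    en A i < en A j ↔ i < j := by
  constructor
  · intro h
    by_contra hle
    rcases Nat.lt_or_eq_of_le (not_lt.1 hle) with h1 | h1
    · exact absurd (en_lt h1 hi) (not_lt.2 h.le)
    · rw [h1] at h
      exact lt_irrefl _ h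
  · intro h
    exact en_lt h hj

theorem en_surj {A : Finset ℕ} {w : ℕ} (hw : w ∈ A) : ∃ i < A.card, en A i = w := by
  have h1 : w ∈ Set.range (A.orderEmbOfFin rfl) := by
    rw [range_orderEmbOfFin]
    exact hw
  obtain ⟨i, hi⟩ := h1
  refine ⟨i, i.2, ?_⟩
  unfold en
  rw [dif_pos i.2]
  exact hi

theorem en_max {A : Finset ℕ} {i j : ℕ} (hi : i < A.card) (hj : j < A.card) :
    max (en A i) (en A j) = en A (max i j) := by
  rcases lt_trichotomy i j with h | h | h
  · rw [max_eq_right (en_lt h hj).le, max_eq_right h.le]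
  · rw [h, max_self, max_self]
  · rw [max_eq_left (en_lt h hi).le, max_eq_left h.le]

/-- the rank of an element -/
theorem en_rank {E : Finset ℕ} {w : ℕ} (hw : w ∈ E) :
    (E.filter (fun y => y < w)).card < E.card ∧ en E (E.filter (fun y => y < w)).card = w := by
  obtain ⟨i, hi, rfl⟩ := en_surj hw
  have h1 : (E.filter (fun y => y < en E i)).card = i := by
    have h2 : E.filter (fun y => y < en E i) = (range i).image (en E) := by
      ext y
      simp only [mem_filter, mem_image, mem_range]
      constructor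
      · rintro ⟨hy, hlt⟩
        obtain ⟨l, hl, rfl⟩ := en_surj hy
        exact ⟨l, (en_lt_iff hl hi).1 hlt, rfl⟩
      · rintro ⟨l, hl, rfl⟩
        exact ⟨en_mem (hl.trans hi), en_lt hl hi⟩
    rw [h2, card_image_of_injOn, card_range]
    intro a ha b hb hab
    rw [coe_range, Set.mem_Iio] at ha hb
    rcases lt_trichotomy a b with h | h | h
    · exact absurd hab (en_lt h (hb.trans hi)).ne
    · exact h
    · exact absurd hab (en_lt h (ha.trans hi)).ne'
  rw [h1]
  exact ⟨hi, rfl⟩

theorem en_unique {k : ℕ} {x : Fin k → ℕ} (hx : StrictMono x) (i : Fin k) :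
    en (univ.image x) i = x i := by
  have hc : (univ.image x).card = k := by
    rw [card_image_of_injective _ hx.injective, card_univ, Fintype.card_fin]
  have h1 : x = (univ.image x).orderEmbOfFin hc :=
    orderEmbOfFin_unique hc (fun i => mem_image_of_mem _ (mem_univ _)) hx
  unfold en
  rw [dif_pos (by rw [hc]; exact i.2)]
  conv_rhs => rw [h1]
  rw [orderEmbOfFin_eq_orderEmbOfFin_iff]

/-- The patterns of the sets with at most `m` elements are described by a code with at most `β`
values. -/
def PC (c : Finset ℕ → κ) (s N m β : ℕ) : Prop :=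
  ∃ (α : Type) (_ : Fintype α) (code : Finset ℕ → α), Fintype.card α ≤ β ∧
    ∀ A A' : Finset ℕ, A ⊆ range N → A' ⊆ range N → A.card ≤ m → A'.card ≤ m →
      code A = code A' → A.card = A'.card ∧
        ∀ T ⊆ range A.card, T.card = s → c (T.image (en A)) = c (T.image (en A'))

theorem PC.mono {c : Finset ℕ → κ} {s N m β β' : ℕ} (h : PC c s N m β) (hβ : β ≤ β') :
    PC c s N m β' := by
  obtain ⟨α, hα, code, h1, h2⟩ := h
  exact ⟨α, hα, code, h1.trans hβ, h2⟩

theorem pc_base [Fintype κ] (c : Finset ℕ → κ) (s N m : ℕ) :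
    PC c s N m ((m + 1) * Fintype.card κ ^ m.choose s) := by
  classical
  refine ⟨Fin (m + 1) × ({T // T ∈ powersetCard s (range m)} → κ), inferInstance,
    fun A => (⟨min A.card m, by omega⟩, fun T => c (T.1.image (en A))), ?_, ?_⟩
  · rw [Fintype.card_prod, Fintype.card_fun, Fintype.card_fin, Fintype.card_coe,
      card_powersetCard, card_range]
  · intro A A' hA hA' hc hc' heq
    simp only [Prod.mk.injEq, Fin.mk.injEq] at heq
    obtain ⟨q1, q2⟩ := heq
    rw [min_eq_left hc, min_eq_left hc'] at q1
    refine ⟨q1, fun T hT hTc => ?_⟩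
    have hT' : T ∈ powersetCard s (range m) := by
      rw [mem_powersetCard]
      refine ⟨hT.trans ?_, hTc⟩
      intro i hi
      rw [mem_range] at hi ⊢
      omega
    exact congrFun q2 ⟨T, hT'⟩

/-- differences of neighbours -/
noncomputable def df (A : Finset ℕ) (i : ℕ) : ℕ := hd (en A i) (en A (i + 1))

/-- the set of differences of neighbours -/
noncomputable def dfs (A : Finset ℕ) : Finset ℕ := (range (A.card - 1)).image (df A)

/-- the rank of a difference -/
noncomputable def rk (A : Finset ℕ) (i : ℕ) : ℕ := ((dfs A).filter (fun y => y < df A i)).card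

theorem dfs_card (A : Finset ℕ) : (dfs A).card ≤ A.card - 1 := by
  refine card_image_le.trans ?_
  rw [card_range]

theorem df_mem {A : Finset ℕ} {i : ℕ} (h : i + 1 < A.card) : df A i ∈ dfs A :=
  mem_image_of_mem _ (mem_range.2 (by omega))

theorem dfs_sub {A : Finset ℕ} {N : ℕ} (hA : A ⊆ range (2 ^ N)) : dfs A ⊆ range N := by
  intro w hw
  obtain ⟨i, hi, rfl⟩ := mem_image.1 hw
  rw [mem_range] at hi ⊢
  exact hd_lt (en_lt (Nat.lt_succ_self i) (by omega)) (mem_range.1 (hA (en_mem (by omega))))

theorem dist_rank {A A' : Finset ℕ} (hc : A.card = A'.card)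
    (hE : (dfs A).card = (dfs A').card) (hr : ∀ i, i + 1 < A.card → rk A i = rk A' i) (i : ℕ) :
    ∀ j, i < j → j < A.card → ∃ q < (dfs A).card, hd (en A i) (en A j) = en (dfs A) q ∧
      hd (en A' i) (en A' j) = en (dfs A') q := by
  intro j
  induction j with
  | zero => intro h; omega
  | succ j ih =>
    intro h1 h2
    obtain ⟨r1, r2⟩ := en_rank (df_mem (A := A) (i := j) h2)
    obtain ⟨r1', r2'⟩ := en_rank (df_mem (A := A') (i := j) (by omega))
    have h3 := hr j h2
    have e1 : ((dfs A).filter (fun y => y < df A j)).card = rk A j := rfl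
    have e2 : ((dfs A').filter (fun y => y < df A' j)).card = rk A' j := rfl
    rw [e1] at r1 r2
    rw [e2, ← h3] at r1' r2'
    rcases Nat.lt_or_ge i j with h4 | h4
    · obtain ⟨q, hq, g1, g2⟩ := ih h4 (by omega)
      refine ⟨max q (rk A j), max_lt hq r1, ?_, ?_⟩
      · rw [hd_max (en_lt h4 (by omega)) (en_lt (Nat.lt_succ_self j) h2), g1, ← en_max hq r1, r2]
        rfl
      · rw [hd_max (en_lt h4 (by omega)) (en_lt (Nat.lt_succ_self j) (by omega)), g2,
          ← en_max (hE ▸ hq) r1', r2']
        rfl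
    · have h5 : i = j := by omega
      subst h5
      exact ⟨rk A i, r1, r2.symm, r2'.symm⟩

theorem pc_step {c : Finset ℕ → κ} {c' : Finset ℕ → κ'} {R N m β : ℕ} (hS : Steps c c' R N)
    (hT : PC c (R + 1) N m β) : PC c' (R + 2) (2 ^ N) (m + 1) ((m + 2) * (m ^ m * β)) := by
  classical
  obtain ⟨α, hα, code, hcard, hcode⟩ := hT
  refine ⟨Fin (m + 2) × (Fin m → Fin m) × α, inferInstance,
    fun A => (⟨min A.card (m + 1), by omega⟩,
      fun i => if h : rk A i < m then ⟨rk A i, h⟩ else i, code (dfs A)), ?_, ?_⟩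
  · simp only [Fintype.card_prod, Fintype.card_fun, Fintype.card_fin]
    gcongr
  · intro A A' hA hA' hc hc' heq
    simp only [Prod.mk.injEq, Fin.mk.injEq] at heq
    obtain ⟨q1, q2, q3⟩ := heq
    rw [min_eq_left hc, min_eq_left hc'] at q1
    have hE1 := dfs_card A
    have hE2 := dfs_card A'
    obtain ⟨g1, g2⟩ := hcode _ _ (dfs_sub hA) (dfs_sub hA') (by omega) (by omega) q3
    have hr : ∀ i, i + 1 < A.card → rk A i = rk A' i := by
      intro i hi
      have h1 : rk A i < m := by
        have := (en_rank (df_mem (A := A) hi)).1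
        have e1 : ((dfs A).filter (fun y => y < df A i)).card = rk A i := rfl
        omega
      have h2 : rk A' i < m := by
        have := (en_rank (df_mem (A := A') (i := i) (by omega))).1
        have e1 : ((dfs A').filter (fun y => y < df A' i)).card = rk A' i := rfl
        omega
      have h3 := congrFun q2 ⟨i, by omega⟩
      simp only [dif_pos h1, dif_pos h2, Fin.mk.injEq] at h3
      exact h3
    refine ⟨q1, fun T hT hTc => ?_⟩
    have hτ := srt_mono hTc
    have hτT := srt_image hTc
    set τ := srt (R + 2) T with hτdef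
    have hτlt : ∀ l, τ l < A.card := by
      intro l
      have h1 : τ l ∈ T := by rw [← hτT]; exact mem_image_of_mem _ (mem_univ _)
      exact mem_range.1 (hT h1)
    have hX : StrictMono (fun l => en A (τ l)) := fun l l' h => en_lt (hτ h) (hτlt _)
    have hX' : StrictMono (fun l => en A' (τ l)) := fun l l' h =>
      en_lt (hτ h) (by rw [← q1]; exact hτlt _)
    have him : ∀ B : Finset ℕ, T.image (en B) = univ.image (fun l => en B (τ l)) := by
      intro B
      rw [← hτT, image_image]
      rfl
    rw [him, him]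
    choose q hq hq1 hq2 using fun l : Fin (R + 1) =>
      dist_rank q1 g1 hr (τ l.castSucc) (τ l.succ) (hτ (Fin.castSucc_lt_succ)) (hτlt _)
    have hD : D (fun l => en A (τ l)) = fun l => en (dfs A) (q l) := by
      funext l
      exact hq1 l
    have hD' : D (fun l => en A' (τ l)) = fun l => en (dfs A') (q l) := by
      funext l
      exact hq2 l
    refine hS _ _ hX hX' (fun i => mem_range.1 (hA (en_mem (hτlt i))))
      (fun i => mem_range.1 (hA' (en_mem (by rw [← q1]; exact hτlt i)))) ?_ ?_
    · intro k l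
      rw [hD, hD']
      show en (dfs A) (q k) < en (dfs A) (q l) ↔ en (dfs A') (q k) < en (dfs A') (q l)
      rw [en_lt_iff (hq k) (hq l), en_lt_iff (g1 ▸ hq k) (g1 ▸ hq l)]
    · intro hm
      have hinj : Function.Injective q := by
        intro k l hkl
        have h1 : D (fun l => en A (τ l)) k = D (fun l => en A (τ l)) l := by
          rw [hD]
          show en (dfs A) (q k) = en (dfs A) (q l)
          rw [hkl]
        rcases hm with hm | hm
        · exact hm.injective h1
        · exact hm.injective h1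
      have h1 := g2 (univ.image q) (by
        intro w hw
        obtain ⟨l, -, rfl⟩ := mem_image.1 hw
        exact mem_range.2 (hq l)) (by
        rw [card_image_of_injective _ hinj, card_univ, Fintype.card_fin])
      rw [image_image, image_image] at h1
      rw [hD, hD']
      exact h1

theorem pc_zero (c : Finset ℕ → κ) (s N : ℕ) (hs : 1 ≤ s) : PC c s N 0 1 := by
  refine ⟨Unit, inferInstance, fun _ => (), by simp, ?_⟩
  intro A A' _ _ hc hc' _
  refine ⟨by omega, fun T hT hTc => ?_⟩
  exfalso
  have h1 := card_le_card hT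
  rw [card_range] at h1
  omega

theorem num_pc (q s j m : ℕ) (hq : 1 ≤ q) :
    (m + 2) * (m ^ m * ((m + 1) ^ (j * (m + 1) + 1) * q ^ m.choose s)) ≤
      (m + 1 + 1) ^ ((j + 1) * (m + 1 + 1) + 1) * q ^ (m + 1).choose s := by
  have h1 : q ^ m.choose s ≤ q ^ (m + 1).choose s :=
    Nat.pow_le_pow_right hq (Nat.choose_le_choose s (Nat.le_succ m))
  have h2 : (m + 1) ^ (j * (m + 1) + 1) ≤ (m + 2) ^ (j * (m + 2) + 1) := by
    calc (m + 1) ^ (j * (m + 1) + 1) ≤ (m + 2) ^ (j * (m + 1) + 1) :=
          Nat.pow_le_pow_left (by omega) _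
      _ ≤ _ := Nat.pow_le_pow_right (by omega) (by gcongr; omega)
  have h3 : m ^ m ≤ (m + 2) ^ m := Nat.pow_le_pow_left (by omega) _
  calc (m + 2) * (m ^ m * ((m + 1) ^ (j * (m + 1) + 1) * q ^ m.choose s))
      ≤ (m + 2) * ((m + 2) ^ m * ((m + 2) ^ (j * (m + 2) + 1) * q ^ (m + 1).choose s)) := by
        gcongr
    _ = (m + 2) ^ (1 + m + (j * (m + 2) + 1)) * q ^ (m + 1).choose s := by
        rw [pow_add, pow_add, pow_one]
        ring
    _ ≤ (m + 1 + 1) ^ ((j + 1) * (m + 1 + 1) + 1) * q ^ (m + 1).choose s := by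
        apply Nat.mul_le_mul_right
        apply Nat.pow_le_pow_right (by omega)
        have : (j + 1) * (m + 1 + 1) = j * (m + 2) + (m + 2) := by ring
        omega

theorem pc_iter_gen (a₁ a₂ : κ) (t s q N i : ℕ) (hq : 1 ≤ q) (c : Finset ℕ → κ)
    (hP : ∀ m, PC c (t + 3) N m ((m + 1) ^ (i * (m + 1) + 1) * q ^ m.choose s)) (j : ℕ) :
    ∀ m, PC (iter a₁ a₂ t c j) (t + j + 3) (tw j N) m
      ((m + 1) ^ ((i + j) * (m + 1) + 1) * q ^ m.choose s) := by
  induction j with
  | zero => exact hP
  | succ j ih =>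
    intro m
    rcases m with _ | m
    · refine PC.mono (pc_zero _ _ _ (by omega)) ?_
      exact Nat.mul_pos (by positivity) (Nat.pow_pos hq)
    · have h1 := pc_step (R := t + j + 2)
        (steps_stepUp a₁ a₂ (t + j) (iter a₁ a₂ t c j) (tw j N)) (ih m)
      exact PC.mono h1 (num_pc q s (i + j) m hq)

theorem pc_iter [Fintype κ] (a₁ a₂ : κ) (t N : ℕ) (c : Finset ℕ → κ) (j m : ℕ) :
    PC (iter a₁ a₂ t c j) (t + j + 3) (tw j N) m
      ((m + 1) ^ (j * (m + 1) + 1) * Fintype.card κ ^ m.choose (t + 3)) := by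
  have h := pc_iter_gen a₁ a₂ t (t + 3) (Fintype.card κ) N 0
    (Fintype.card_pos_iff.2 ⟨a₁⟩) c (by
      intro m
      have h1 := pc_base c (t + 3) N m
      simpa using h1) j m
  rwa [Nat.zero_add] at h

theorem numPatterns_le {c : Finset ℕ → κ} {r N k β : ℕ} (h : PC c r N k β) :
    numPatterns c r N k ≤ β := by
  classical
  obtain ⟨α, hα, code, hcard, hcode⟩ := h
  refine le_trans ?_ hcard
  unfold numPatterns
  set S : Set (Fin k → ℕ) := {x | StrictMono x ∧ ∀ i, x i < N} with hSdef
  set F : α → (Finset (Fin k) → Option κ) := fun a =>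
    if h : ∃ x : Fin k → ℕ, x ∈ S ∧ code (univ.image x) = a then pattern c r h.choose
    else fun _ => none with hF
  have hsub : (fun x : Fin k → ℕ => pattern c r x) '' S ⊆ F '' Set.univ := by
    rintro _ ⟨x, hx, rfl⟩
    refine ⟨code (univ.image x), Set.mem_univ _, ?_⟩
    have hex : ∃ x' : Fin k → ℕ, x' ∈ S ∧ code (univ.image x') = code (univ.image x) :=
      ⟨x, hx, rfl⟩
    have h1 : F (code (univ.image x)) = pattern c r hex.choose := dif_pos hex
    rw [h1]
    obtain ⟨g1, g3⟩ := hex.choose_spec
    set x' := hex.choose with hx'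
    have hc : ∀ y : Fin k → ℕ, y ∈ S → (univ.image y).card = k := fun y hy => by
      rw [card_image_of_injective _ hy.1.injective, card_univ, Fintype.card_fin]
    have hr : ∀ y : Fin k → ℕ, y ∈ S → univ.image y ⊆ range N := by
      intro y hy w hw
      obtain ⟨i, -, rfl⟩ := mem_image.1 hw
      exact mem_range.2 (hy.2 i)
    obtain ⟨-, h2⟩ := hcode _ _ (hr x' g1) (hr x hx) (hc x' g1).le (hc x hx).le g3
    funext T
    show pattern c r x' T = pattern c r x T
    unfold pattern
    by_cases hT : T.card = r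
    · rw [if_pos hT, if_pos hT]
      congr 1
      have h3 := h2 (T.image Fin.val) (by
        intro w hw
        obtain ⟨i, -, rfl⟩ := mem_image.1 hw
        rw [hc x' g1]
        exact mem_range.2 i.2) (by
        rw [card_image_of_injective _ Fin.val_injective, hT])
      have h4 : ∀ y : Fin k → ℕ, y ∈ S → (T.image Fin.val).image (en (univ.image y)) =
          T.image y := by
        intro y hy
        rw [image_image]
        congr 1
        funext i
        exact en_unique hy.1 i
      rw [h4 x' g1, h4 x hx] at h3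
      exact h3
    · rw [if_neg hT, if_neg hT]
  calc Set.ncard ((fun x : Fin k → ℕ => pattern c r x) '' S)
      ≤ Set.ncard (F '' Set.univ) := Set.ncard_le_ncard hsub (Set.toFinite _)
    _ ≤ Set.ncard (Set.univ : Set α) := Set.ncard_image_le (Set.toFinite _)
    _ = Fintype.card α := by rw [Set.ncard_univ, Nat.card_eq_fintype_card]

end Pool.Agent.H30.VK
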