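import Pool.Graph.R_seed8.Y424.LK.Trace

/-!
# Stepping up, for every number of colours, uniformity at least three
-/

set_option autoImplicit false

namespace Pool.Agent.H30.VK

open Finset Pool.Agent.TH138.NF Pool.Agent.Y424.LK

variable {κ : Type}

open Classical in
/-- The stepped-up colouring of the `(t + 4)`-sets. -/
noncomputable def stepUp (a₁ a₂ : κ) (t : ℕ) (c : Finset ℕ → κ) (A : Finset ℕ) : κ :=
  if StrictMono (D (srt (t + 4) A)) ∨ StrictAnti (D (srt (t + 4) A)) then
    c (univ.image (D (srt (t + 4) A)))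
  else if D (srt (t + 4) A) 0 < D (srt (t + 4) A) 1 then a₁ else a₂

open Classical in
theorem stepUp_eq (a₁ a₂ : κ) (t : ℕ) (c : Finset ℕ → κ) (X : Fin (t + 4) → ℕ)
    (hX : StrictMono X) : stepUp a₁ a₂ t c (univ.image X) =
      if StrictMono (D X) ∨ StrictAnti (D X) then c (univ.image (D X))
      else if D X 0 < D X 1 then a₁ else a₂ := by
  have h := srt_unique hX rfl
  unfold stepUp
  rw [← h]

theorem steps_stepUp (a₁ a₂ : κ) (t : ℕ) (c : Finset ℕ → κ) (N : ℕ) :
    Steps c (stepUp a₁ a₂ t c) (t + 2) N := by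
  classical
  intro X X' hX hX' hb hb' hpat hmon
  rw [stepUp_eq a₁ a₂ t c X hX, stepUp_eq a₁ a₂ t c X' hX']
  by_cases h : StrictMono (D X) ∨ StrictAnti (D X)
  · have h' : StrictMono (D X') ∨ StrictAnti (D X') := by
      rcases h with h | h
      · exact Or.inl (hpat.mono h)
      · exact Or.inr (hpat.anti h)
    rw [if_pos h, if_pos h']
    exact hmon h
  · have h' : ¬ (StrictMono (D X') ∨ StrictAnti (D X')) := by
      rintro (h' | h')
      · exact h (Or.inl (hpat.symm.mono h'))
      · exact h (Or.inr (hpat.symm.anti h'))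
    rw [if_neg h, if_neg h']
    simp only [hpat 0 1]

theorem image_rev' {n : ℕ} (d : Fin n → ℕ) :
    univ.image (fun i : Fin n => d i.rev) = univ.image d := by
  ext y
  simp only [mem_image, mem_univ, true_and]
  constructor
  · rintro ⟨i, rfl⟩
    exact ⟨i.rev, rfl⟩
  · rintro ⟨i, rfl⟩
    exact ⟨i.rev, by rw [Fin.rev_rev]⟩

/-- a monotone stretch of digits is homogeneous -/
theorem hom_stretch (a₁ a₂ : κ) (t : ℕ) (c : Finset ℕ → κ) (S : Finset ℕ)
    (hS : Homogeneous (t + 4) (stepUp a₁ a₂ t c) S) (y : ℕ → ℕ) (K : ℕ)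
    (hyS : ∀ i ≤ K, y i ∈ S) (hy : ∀ i, i < K → y i < y (i + 1))
    (he : (∀ i, i + 1 < K → hd (y i) (y (i + 1)) < hd (y (i + 1)) (y (i + 2))) ∨
      (∀ i, i + 1 < K → hd (y (i + 1)) (y (i + 2)) < hd (y i) (y (i + 1)))) :
    Homogeneous (t + 3) c ((range K).image (fun i => hd (y i) (y (i + 1)))) ∧
      ((range K).image (fun i => hd (y i) (y (i + 1)))).card = K := by
  classical
  have fin : (∀ A ⊆ (range K).image (fun i => hd (y i) (y (i + 1))), A.card = t + 3 →
      ∃ x : Fin (t + 4) → ℕ, StrictMono x ∧ (∀ l, x l ∈ S) ∧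
        stepUp a₁ a₂ t c (univ.image x) = c A) →
      Homogeneous (t + 3) c ((range K).image (fun i => hd (y i) (y (i + 1)))) := by
    intro key A hA B hB hAc hBc
    obtain ⟨x, h1, h2, h3⟩ := key A hA hAc
    obtain ⟨x', h1', h2', h3'⟩ := key B hB hBc
    rw [← h3, ← h3']
    refine hS _ ?_ _ ?_ ?_ ?_
    · intro u hu
      obtain ⟨i, _, rfl⟩ := mem_image.1 hu
      exact h2 i
    · intro u hu
      obtain ⟨i, _, rfl⟩ := mem_image.1 hu
      exact h2' i
    · rw [card_image_of_injective _ h1.injective, card_univ, Fintype.card_fin]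
    · rw [card_image_of_injective _ h1'.injective, card_univ, Fintype.card_fin]
  rcases he with he | he
  · have hm : ∀ i k, i < k → k < K → hd (y i) (y (i + 1)) < hd (y k) (y (k + 1)) :=
      e_mono (fun i => hd (y i) (y (i + 1))) K he
    refine ⟨fin ?_, ?_⟩
    · intro A hA hAc
      have hz := srt_mono hAc
      have hzA := srt_image hAc
      set z := srt (t + 3) A with hzdef
      have hch : ∀ l, ∃ i < K, hd (y i) (y (i + 1)) = z l := fun l => by
        have h1 : z l ∈ A := by rw [← hzA]; exact mem_image_of_mem _ (mem_univ _)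
        simpa using mem_image.1 (hA h1)
      choose idx hidx hz' using hch
      have him : StrictMono idx := by
        intro a a' haa'
        by_contra hle
        push Not at hle
        have h3 := hz haa'
        rw [← hz' a, ← hz' a'] at h3
        rcases Nat.lt_or_eq_of_le hle with h | h
        · exact absurd (hm _ _ h (hidx a)) (not_lt.2 h3.le)
        · rw [h] at h3; exact lt_irrefl _ h3
      obtain ⟨x, hx, hxS, hDx⟩ := real_inc y K hy he idx him hidx
      have hDz : D x = z := by
        rw [hDx]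
        funext l
        exact hz' l
      refine ⟨x, hx, fun l => ?_, ?_⟩
      · obtain ⟨i, hi, e⟩ := hxS l
        rw [e]
        exact hyS i hi
      · rw [stepUp_eq a₁ a₂ t c x hx, hDz, if_pos (Or.inl hz), hzA]
    · rw [card_image_of_injOn, card_range]
      intro i hi k hk hik
      rw [coe_range, Set.mem_Iio] at hi hk
      simp only at hik
      rcases lt_trichotomy i k with h | h | h
      · exact absurd hik (hm i k h hk).ne
      · exact h
      · exact absurd hik (hm k i h hi).ne'
  · have hm : ∀ i k, i < k → k < K → hd (y k) (y (k + 1)) < hd (y i) (y (i + 1)) :=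
      e_anti (fun i => hd (y i) (y (i + 1))) K he
    refine ⟨fin ?_, ?_⟩
    · intro A hA hAc
      have hz := srt_mono hAc
      have hzA := srt_image hAc
      set z := srt (t + 3) A with hzdef
      have hch : ∀ l, ∃ i < K, hd (y i) (y (i + 1)) = z l := fun l => by
        have h1 : z l ∈ A := by rw [← hzA]; exact mem_image_of_mem _ (mem_univ _)
        simpa using mem_image.1 (hA h1)
      choose idx hidx hz' using hch
      have him : StrictMono (fun l : Fin (t + 3) => idx l.rev) := by
        intro a a' haa'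
        by_contra hle
        push Not at hle
        have h3 := hz (Fin.rev_lt_rev.2 haa')
        rw [← hz' a.rev, ← hz' a'.rev] at h3
        rcases Nat.lt_or_eq_of_le hle with h | h
        · exact absurd (hm _ _ h (hidx a.rev)) (not_lt.2 h3.le)
        · rw [h] at h3; exact lt_irrefl _ h3
      obtain ⟨x, hx, hxS, hDx⟩ := real_dec y K hy he (fun l => idx l.rev) him
        (fun l => hidx l.rev)
      have hDz : D x = fun l => z l.rev := by
        rw [hDx]
        funext l
        exact hz' l.rev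
      refine ⟨x, hx, fun l => ?_, ?_⟩
      · obtain ⟨i, hi, e⟩ := hxS l
        rw [e]
        exact hyS i hi
      · rw [stepUp_eq a₁ a₂ t c x hx, hDz, if_pos (Or.inr (by
          intro a b hab
          exact hz (Fin.rev_lt_rev.2 hab))), image_rev', hzA]
    · rw [card_image_of_injOn, card_range]
      intro i hi k hk hik
      rw [coe_range, Set.mem_Iio] at hi hk
      simp only at hik
      rcases lt_trichotomy i k with h | h | h
      · exact absurd hik (hm i k h hk).ne'
      · exact h
      · exact absurd hik (hm k i h hi).ne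

theorem not_mono_of {t : ℕ} {d : Fin (t + 3) → ℕ} (h1 : d 1 < d 0) : ¬ StrictMono d := by
  intro h
  have := h (a := 0) (b := 1) (by rw [Fin.lt_def]; simp)
  omega

theorem not_anti_of {t : ℕ} {d : Fin (t + 3) → ℕ} (h1 : d 0 < d 1) : ¬ StrictAnti d := by
  intro h
  have := h (a := 0) (b := 1) (by rw [Fin.lt_def]; simp)
  omega

theorem fin_one_lt_two {t : ℕ} : (1 : Fin (t + 3)) < 2 := by
  rw [Fin.lt_def]
  have h1 : ((1 : Fin (t + 3)) : ℕ) = 1 := by
    rw [Fin.val_one']
    exact Nat.mod_eq_of_lt (by omega)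
  have h2 : ((2 : Fin (t + 3)) : ℕ) = 2 := Nat.mod_eq_of_lt (show 2 < t + 3 by omega)
  omega

/-- **Stepping up.** -/
theorem stepUp_lower {a₁ a₂ : κ} (hne' : a₁ ≠ a₂) (t : ℕ) (c : Finset ℕ → κ) (M n : ℕ)
    (hn : 2 ≤ n) (hP : ∀ S ⊆ range M, S.card = n → ¬ Homogeneous (t + 3) c S) :
    ∀ S ⊆ range (2 ^ M), S.card = 2 * n + t → ¬ Homogeneous (t + 4) (stepUp a₁ a₂ t c) S := by
  classical
  intro S hS hc hhom
  obtain ⟨x, hxS, hxm⟩ := enum S
  rw [hc] at hxS hxm
  obtain ⟨R, rfl⟩ : ∃ R, n = R + 1 := ⟨n - 1, by omega⟩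
  have hR : 1 ≤ R := by omega
  set e : ℕ → ℕ := fun i => hd (x i) (x (i + 1)) with he
  have hne : ∀ i, i < 2 * R → e i ≠ e (i + 1) := fun i hi =>
    hd_ne (hxm i (i + 1) (by omega) (by omega)) (hxm (i + 1) (i + 1 + 1) (by omega) (by omega))
  -- windows
  have hwin : ∀ i, i + 2 ≤ 2 * R → ∃ w : Fin (t + 4) → ℕ, StrictMono w ∧ (∀ l, w l ∈ S) ∧
      D w 0 = e i ∧ D w 1 = e (i + 1) ∧ D w 2 = e (i + 2) := by
    intro i hi
    refine ⟨fun l => x (i + l.val), fun a b hab => ?_, fun l => hxS _ (by omega), ?_, ?_, ?_⟩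
    · exact hxm _ _ (by have := Fin.lt_def.1 hab; omega) (by omega)
    · rfl
    · rfl
    · rfl
  have himS : ∀ w : Fin (t + 4) → ℕ, StrictMono w → (∀ l, w l ∈ S) →
      univ.image w ⊆ S ∧ (univ.image w).card = t + 4 := by
    intro w hw hwS
    refine ⟨?_, ?_⟩
    · intro u hu
      obtain ⟨i, _, rfl⟩ := mem_image.1 hu
      exact hwS i
    · rw [card_image_of_injective _ hw.injective, card_univ, Fintype.card_fin]
  obtain ⟨flag, hflag⟩ : ∃ flag : Bool,
      (flag = false → ∀ i, i + 2 ≤ 2 * R → ¬ (e (i + 1) < e i ∧ e (i + 1) < e (i + 2))) ∧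
      (flag = true → ∀ i, i + 2 ≤ 2 * R → ¬ (e i < e (i + 1) ∧ e (i + 2) < e (i + 1))) := by
    by_cases hmax : ∃ i, i + 2 ≤ 2 * R ∧ (e i < e (i + 1) ∧ e (i + 2) < e (i + 1))
    · refine ⟨false, fun _ i hi hmin => ?_, fun h => by simp at h⟩
      obtain ⟨i', hi', h1, h2⟩ := hmax
      obtain ⟨w, hw1, hw2, a0, a1, a2⟩ := hwin i hi
      obtain ⟨w', hw1', hw2', b0, b1, b2⟩ := hwin i' hi'
      have e1 : stepUp a₁ a₂ t c (univ.image w) = a₂ := by
        rw [stepUp_eq a₁ a₂ t c w hw1, if_neg, if_neg]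
        · rw [a0, a1]
          omega
        · rintro (h | h)
          · exact not_mono_of (by rw [a0, a1]; exact hmin.1) h
          · have h3 := h (fin_one_lt_two (t := t))
            rw [a1, a2] at h3
            omega
      have e2 : stepUp a₁ a₂ t c (univ.image w') = a₁ := by
        rw [stepUp_eq a₁ a₂ t c w' hw1', if_neg, if_pos]
        · rw [b0, b1]
          exact h1
        · rintro (h | h)
          · have h3 := h (fin_one_lt_two (t := t))
            rw [b1, b2] at h3
            omega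
          · exact not_anti_of (by rw [b0, b1]; exact h1) h
      have e3 := hhom _ (himS w hw1 hw2).1 _ (himS w' hw1' hw2').1 (himS w hw1 hw2).2
        (himS w' hw1' hw2').2
      rw [e1, e2] at e3
      exact hne' e3.symm
    · push Not at hmax
      refine ⟨true, fun h => by simp at h, fun _ i hi h => ?_⟩
      have := hmax i hi h.1
      omega
  obtain ⟨i0, hi0, hmon⟩ := monotone_half e R hR hne flag hflag.1 hflag.2
  have hK : (∀ i, i + 1 < R + 1 → hd (x (i0 + i)) (x (i0 + (i + 1))) <
        hd (x (i0 + (i + 1))) (x (i0 + (i + 2)))) ∨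
      (∀ i, i + 1 < R + 1 → hd (x (i0 + (i + 1))) (x (i0 + (i + 2))) <
        hd (x (i0 + i)) (x (i0 + (i + 1)))) := by
    rcases hmon with h | h
    · exact Or.inl (fun i hi => h i (by omega))
    · exact Or.inr (fun i hi => h i (by omega))
  obtain ⟨h1, h2⟩ := hom_stretch a₁ a₂ t c S hhom (fun i => x (i0 + i)) (R + 1)
    (fun i hi => hxS _ (by omega)) (fun i hi => hxm _ _ (by omega) (by omega)) hK
  refine hP _ ?_ h2 h1
  intro u hu
  obtain ⟨i, hi, rfl⟩ := mem_image.1 hu
  rw [mem_range] at hi ⊢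
  exact hd_lt (hxm _ _ (by omega) (by omega)) (mem_range.1 (hS (hxS _ (by omega))))

end Pool.Agent.H30.VK
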