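import Pool.Agent.H30.VK.Step

/-!
# Types of tuples over sets of vertices
-/

set_option autoImplicit false

namespace Pool.Agent.H30.VK

open Finset Pool.Agent.TH138.NF Pool.Agent.Y424.LK

variable {κ κ' : Type}

/-- the vertices of `W` and of the tuple `b` -/
def ev (W : Finset ℕ) {ι : Type} (b : ι → ℕ) : {w // w ∈ W} ⊕ ι → ℕ :=
  Sum.elim (fun w => w.1) b

/-- `b` and `b'` have the same type over `W`. -/
def SameType (c : Finset ℕ → κ) (s : ℕ) (W : Finset ℕ) {ι : Type} (b b' : ι → ℕ) : Prop :=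
  (∀ u v, ev W b u < ev W b v ↔ ev W b' u < ev W b' v) ∧
  ∀ x : Fin s → {w // w ∈ W} ⊕ ι, StrictMono (fun i => ev W b (x i)) →
    c (univ.image (fun i => ev W b (x i))) = c (univ.image (fun i => ev W b' (x i)))

/-- The types over `W` of the tuples indexed by `ι` are described by a code with at most `β |W|`
values. -/
def TC (c : Finset ℕ → κ) (s N : ℕ) (ι : Type) (β : ℕ → ℕ) : Prop :=
  ∀ W ⊆ range N, ∃ (α : Type) (_ : Fintype α) (code : (ι → ℕ) → α),
    Fintype.card α ≤ β W.card ∧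
    ∀ b b' : ι → ℕ, (∀ i, b i < N) → (∀ i, b' i < N) → code b = code b' → SameType c s W b b'

theorem TC.mono {c : Finset ℕ → κ} {s N : ℕ} {ι : Type} {β β' : ℕ → ℕ} (h : TC c s N ι β)
    (hβ : ∀ m, β m ≤ β' m) : TC c s N ι β' := by
  intro W hW
  obtain ⟨α, hα, code, h1, h2⟩ := h W hW
  exact ⟨α, hα, code, h1.trans (hβ _), h2⟩

theorem SameType.subset {c : Finset ℕ → κ} {s : ℕ} {W Z : Finset ℕ} {ι : Type} {b b' : ι → ℕ}
    (h : SameType c s Z b b') (hWZ : W ⊆ Z) : SameType c s W b b' := by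
  set f : {w // w ∈ W} ⊕ ι → {w // w ∈ Z} ⊕ ι := Sum.map (fun w => ⟨w.1, hWZ w.2⟩) id with hf
  have e : ∀ (a : ι → ℕ) (u : {w // w ∈ W} ⊕ ι), ev W a u = ev Z a (f u) := by
    intro a u
    rcases u with u | u
    · rfl
    · rfl
  refine ⟨fun u v => ?_, fun x hx => ?_⟩
  · rw [e b u, e b v, e b' u, e b' v]
    exact h.1 _ _
  · have h1 : (fun i => ev W b (x i)) = fun i => ev Z b (f (x i)) := by
      funext i
      exact e b _
    have h2 : (fun i => ev W b' (x i)) = fun i => ev Z b' (f (x i)) := by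
      funext i
      exact e b' _
    rw [h1] at hx ⊢
    rw [h2]
    exact h.2 _ hx

/-- the order of the vertices of `W` and `b` -/
theorem order_same {W : Finset ℕ} {ι : Type} {b b' : ι → ℕ}
    (e1 : ∀ i, (W.filter (fun y => y < b i)).card = (W.filter (fun y => y < b' i)).card)
    (e2 : ∀ i, (W.filter (fun y => y ≤ b i)).card = (W.filter (fun y => y ≤ b' i)).card)
    (e3 : ∀ i j, b i < b j ↔ b' i < b' j) :
    ∀ u v, ev W b u < ev W b v ↔ ev W b' u < ev W b' v := by
  intro u v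
  rcases u with u | u <;> rcases v with v | v
  · exact Iff.rfl
  · exact filter_lt_iff (e1 v) u.2
  · have := filter_le_iff (e2 u) v.2
    show b u < v.1 ↔ b' u < v.1
    omega
  · exact e3 u v

theorem card_ev {W : Finset ℕ} {ι : Type} [Fintype ι] :
    Fintype.card ({w // w ∈ W} ⊕ ι) = W.card + Fintype.card ι := by
  rw [Fintype.card_sum, Fintype.card_coe]

theorem tc_base [Fintype κ] (c : Finset ℕ → κ) (s N : ℕ) (ι : Type) [Fintype ι] :
    TC c (s + 1) N ι (fun m => ((m + 1) * (m + 1)) ^ Fintype.card ι *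
      2 ^ (Fintype.card ι * Fintype.card ι) *
      Fintype.card κ ^ (Fintype.card ι * (m + Fintype.card ι) ^ s)) := by
  classical
  intro W hW
  have hm1 : ∀ v : ℕ, (W.filter (fun y => y < v)).card < W.card + 1 := fun v =>
    Nat.lt_succ_of_le (card_le_card (filter_subset _ _))
  have hm2 : ∀ v : ℕ, (W.filter (fun y => y ≤ v)).card < W.card + 1 := fun v =>
    Nat.lt_succ_of_le (card_le_card (filter_subset _ _))
  refine ⟨(ι → Fin (W.card + 1) × Fin (W.card + 1)) × (ι → ι → Bool) ×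
    (ι × (Fin s → {w // w ∈ W} ⊕ ι) → κ), inferInstance,
    fun b => (fun i => (⟨_, hm1 (b i)⟩, ⟨_, hm2 (b i)⟩), fun i j => decide (b i < b j),
      fun p => c (insert (b p.1) (univ.image (fun k => ev W b (p.2 k))))), ?_, ?_⟩
  · simp only [Fintype.card_prod, Fintype.card_fun, Fintype.card_fin, Fintype.card_bool,
      card_ev]
    rw [← pow_mul, ← mul_assoc]
  · intro b b' hb hb' heq
    simp only [Prod.mk.injEq] at heq
    obtain ⟨q1, q2, q3⟩ := heq
    refine ⟨order_same (fun i => ?_) (fun i => ?_) (fun i j => ?_), fun x hx => ?_⟩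
    · have := congrFun q1 i
      simp only [Prod.mk.injEq, Fin.mk.injEq] at this
      exact this.1
    · have := congrFun q1 i
      simp only [Prod.mk.injEq, Fin.mk.injEq] at this
      exact this.2
    · have := congrFun (congrFun q2 i) j
      simpa using this
    · by_cases h : ∃ j i, x j = Sum.inr i
      · obtain ⟨j, i, hj⟩ := h
        have h1 := congrFun q3 (i, j.removeNth x)
        simp only at h1
        rw [image_removeNth (fun k => ev W b (x k)) j, image_removeNth (fun k => ev W b' (x k)) j]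
        have e1 : ev W b (x j) = b i := by rw [hj]; rfl
        have e2 : ev W b' (x j) = b' i := by rw [hj]; rfl
        rw [e1, e2]
        exact h1
      · have h2 : ∀ j, ev W b (x j) = ev W b' (x j) := by
          intro j
          rcases hxj : x j with w | i
          · rfl
          · exact absurd ⟨j, i, hxj⟩ h
        congr 2
        funext j
        exact h2 j

/-- the distances of a tuple -/
def lev (g : ℕ → ℕ) {ι : Type} (b : ι → ℕ) : ι ⊕ ι × ι → ℕ :=
  Sum.elim (fun i => hh (g (b i)) (b i)) (fun p => hh (b p.1) (b p.2))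

theorem dist_index {c : Finset ℕ → κ} {s : ℕ} {Z : Finset ℕ} {g : ℕ → ℕ}
    (hg : ∀ p, g p ∈ Z) (hgm : ∀ p x, x ∈ Z → hh x p = max (hh (g p) p) (hh x (g p)))
    {ι : Type} {b b' : ι → ℕ} (hgb : ∀ i, g (b i) = g (b' i))
    (hT : SameType c s (HZ Z) (lev g b) (lev g b')) (u v : {w // w ∈ Z} ⊕ ι) :
    ∃ z : {w // w ∈ HZ Z} ⊕ (ι ⊕ ι × ι),
      hh (ev Z b u) (ev Z b v) = ev (HZ Z) (lev g b) z ∧
      hh (ev Z b' u) (ev Z b' v) = ev (HZ Z) (lev g b') z := by
  have mixed : ∀ (w : {w // w ∈ Z}) (i : ι), ∃ z : {w // w ∈ HZ Z} ⊕ (ι ⊕ ι × ι),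
      hh w.1 (b i) = ev (HZ Z) (lev g b) z ∧ hh w.1 (b' i) = ev (HZ Z) (lev g b') z := by
    intro w i
    have hH : hh w.1 (g (b i)) ∈ HZ Z := hh_mem_HZ w.2 (hg _)
    have h1 := hT.1 (Sum.inr (Sum.inl i)) (Sum.inl ⟨_, hH⟩)
    have h2 : ev (HZ Z) (lev g b) (Sum.inr (Sum.inl i)) = hh (g (b i)) (b i) := rfl
    have h3 : ev (HZ Z) (lev g b') (Sum.inr (Sum.inl i)) = hh (g (b i)) (b' i) := by
      show hh (g (b' i)) (b' i) = _
      rw [hgb]
    have h4 : ev (HZ Z) (lev g b) (Sum.inl ⟨_, hH⟩) = hh w.1 (g (b i)) := rfl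
    have h5 : ev (HZ Z) (lev g b') (Sum.inl ⟨_, hH⟩) = hh w.1 (g (b i)) := rfl
    rw [h2, h3, h4, h5] at h1
    have e1 := hgm (b i) w.1 w.2
    have e2 := hgm (b' i) w.1 w.2
    rw [← hgb] at e2
    by_cases hlt : hh (g (b i)) (b i) < hh w.1 (g (b i))
    · refine ⟨Sum.inl ⟨_, hH⟩, ?_, ?_⟩
      · rw [e1, max_eq_right hlt.le]
        rfl
      · rw [e2, max_eq_right (h1.1 hlt).le]
        rfl
    · have hlt' := fun h => hlt (h1.2 h)
      refine ⟨Sum.inr (Sum.inl i), ?_, ?_⟩
      · rw [e1, max_eq_left (not_lt.1 hlt)]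
        rfl
      · rw [e2, max_eq_left (not_lt.1 hlt'), h3]
  rcases u with u | u <;> rcases v with v | v
  · exact ⟨Sum.inl ⟨_, hh_mem_HZ u.2 v.2⟩, rfl, rfl⟩
  · exact mixed u v
  · obtain ⟨z, h1, h2⟩ := mixed v u
    refine ⟨z, ?_, ?_⟩
    · rw [hh_comm]
      exact h1
    · rw [hh_comm]
      exact h2
  · exact ⟨Sum.inr (Sum.inr (u, v)), rfl, rfl⟩

/-- the main step -/
theorem sameType_step {c : Finset ℕ → κ} {c' : Finset ℕ → κ'} {R N : ℕ} (hS : Steps c c' R N)
    {Z : Finset ℕ} (hZ : Z ⊆ range (2 ^ N)) {g : ℕ → ℕ}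
    (hg : ∀ p, g p ∈ Z) (hgm : ∀ p x, x ∈ Z → hh x p = max (hh (g p) p) (hh x (g p)))
    {ι : Type} {b b' : ι → ℕ} (hb : ∀ i, b i < 2 ^ N) (hb' : ∀ i, b' i < 2 ^ N)
    (hgb : ∀ i, g (b i) = g (b' i))
    (hord : ∀ u v, ev Z b u < ev Z b v ↔ ev Z b' u < ev Z b' v)
    (hT : SameType c (R + 1) (HZ Z) (lev g b) (lev g b')) : SameType c' (R + 2) Z b b' := by
  refine ⟨hord, fun x hx => ?_⟩
  have hx' : StrictMono (fun i => ev Z b' (x i)) := fun i j hij => (hord _ _).1 (hx hij)
  have hbd : ∀ (a : ι → ℕ), (∀ i, a i < 2 ^ N) → ∀ u, ev Z a u < 2 ^ N := by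
    intro a ha u
    rcases u with u | u
    · exact mem_range.1 (hZ u.2)
    · exact ha u
  choose z hz hz' using fun k : Fin (R + 1) =>
    dist_index hg hgm hgb hT (x k.castSucc) (x k.succ)
  have hD : D (fun i => ev Z b (x i)) = fun k => ev (HZ Z) (lev g b) (z k) := by
    funext k
    rw [← hz k, hh_lt (hx (Fin.castSucc_lt_succ))]
    rfl
  have hD' : D (fun i => ev Z b' (x i)) = fun k => ev (HZ Z) (lev g b') (z k) := by
    funext k
    rw [← hz' k, hh_lt (hx' (Fin.castSucc_lt_succ))]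
    rfl
  refine hS _ _ hx hx' (fun i => hbd b hb _) (fun i => hbd b' hb' _) ?_ ?_
  · intro k l
    rw [hD, hD']
    exact hT.1 _ _
  · intro hm
    rw [hD] at hm
    rw [hD, hD']
    rcases hm with hm | hm
    · exact hT.2 z hm
    · have h1 := hT.2 (fun k => z k.rev) (fun i j hij => hm (Fin.rev_lt_rev.2 hij))
      have h2 := image_rev' (fun k => ev (HZ Z) (lev g b) (z k))
      have h3 := image_rev' (fun k => ev (HZ Z) (lev g b') (z k))
      rw [← h2, ← h3]
      exact h1

theorem tc_step {c : Finset ℕ → κ} {c' : Finset ℕ → κ'} {R N : ℕ} (hS : Steps c c' R N)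
    (hN : 1 ≤ N) (ι : Type) [Fintype ι] {β : ℕ → ℕ} (hβ : Monotone β)
    (hT : TC c (R + 1) N (ι ⊕ ι × ι) β) :
    TC c' (R + 2) (2 ^ N) ι (fun m => (m + 1) ^ Fintype.card ι *
      (((m + 2) * (m + 2)) ^ Fintype.card ι *
      (2 ^ (Fintype.card ι * Fintype.card ι) * β (m + 1)))) := by
  classical
  intro W hW
  set Z := insert 0 W with hZdef
  have hZ : Z ⊆ range (2 ^ N) := by
    intro z hz
    rcases mem_insert.1 hz with rfl | h
    · rw [mem_range]
      positivity
    · exact hW h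
  have hZc : Z.card ≤ W.card + 1 := card_insert_le _ _
  choose g hg hgm using exists_near (⟨0, mem_insert_self _ _⟩ : Z.Nonempty)
  obtain ⟨α, hα, code, hcard, hcode⟩ := hT (HZ Z) (HZ_sub hN hZ)
  have hm1 : ∀ v : ℕ, (Z.filter (fun y => y < v)).card < Z.card + 1 := fun v =>
    Nat.lt_succ_of_le (card_le_card (filter_subset _ _))
  have hm2 : ∀ v : ℕ, (Z.filter (fun y => y ≤ v)).card < Z.card + 1 := fun v =>
    Nat.lt_succ_of_le (card_le_card (filter_subset _ _))
  refine ⟨(ι → {z // z ∈ Z}) × (ι → Fin (Z.card + 1) × Fin (Z.card + 1)) × (ι → ι → Bool) × α,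
    inferInstance, fun b => (fun i => ⟨g (b i), hg _⟩,
      fun i => (⟨_, hm1 (b i)⟩, ⟨_, hm2 (b i)⟩), fun i j => decide (b i < b j),
      code (lev g b)), ?_, ?_⟩
  · simp only [Fintype.card_prod, Fintype.card_fun, Fintype.card_fin, Fintype.card_bool,
      Fintype.card_coe]
    rw [← pow_mul]
    have h1 : Fintype.card α ≤ β (W.card + 1) :=
      hcard.trans (hβ ((HZ_card Z).trans hZc))
    have h2 : Z.card + 1 ≤ W.card + 2 := by omega
    gcongr
  · intro b b' hb hb' heq
    simp only [Prod.mk.injEq] at heq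
    obtain ⟨q0, q1, q2, q3⟩ := heq
    have hgb : ∀ i, g (b i) = g (b' i) := by
      intro i
      have := congrFun q0 i
      simpa using this
    have hbd : ∀ a : ι → ℕ, (∀ i, a i < 2 ^ N) → ∀ z, lev g a z < N := by
      intro a ha z
      rcases z with z | z
      · exact hh_bound hN (mem_range.1 (hZ (hg _))) (ha z)
      · exact hh_bound hN (ha _) (ha _)
    refine SameType.subset ?_ (subset_insert 0 W)
    refine sameType_step hS hZ hg hgm hb hb' hgb
      (order_same (fun i => ?_) (fun i => ?_) (fun i j => ?_))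
      (hcode _ _ (hbd b hb) (hbd b' hb') q3)
    · have := congrFun q1 i
      simp only [Prod.mk.injEq, Fin.mk.injEq] at this
      exact this.1
    · have := congrFun q1 i
      simp only [Prod.mk.injEq, Fin.mk.injEq] at this
      exact this.2
    · have := congrFun (congrFun q2 i) j
      simpa using this

end Pool.Agent.H30.VK
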